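import Mathlib

/-!
Discrete walks on the natural numbers and the discrete mountain climbing lemma.
-/

set_option autoImplicit false

namespace Pool.Agent.Lib.MP_4bbdcb_gt

open Set

/-- Two naturals differ by at most one. -/
def Adj (a b : ℕ) : Prop := a ≤ b + 1 ∧ b ≤ a + 1

/-- `f` is a lazy walk on the index range `0..n`. -/
def IsWalk (n : ℕ) (f : ℕ → ℕ) : Prop := ∀ i < n, Adj (f i) (f (i + 1))

/-- `x` lies between `a` and `b` (in either order). -/
def Btw (a b x : ℕ) : Prop := min a b ≤ x ∧ x ≤ max a b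

/-- One step in the fibre product of two walks. -/
def FP (n m : ℕ) (f g : ℕ → ℕ) (p q : ℕ × ℕ) : Prop :=
  Adj p.1 q.1 ∧ Adj p.2 q.2 ∧ p.1 ≤ n ∧ p.2 ≤ m ∧ q.1 ≤ n ∧ q.2 ≤ m ∧
    f p.1 = g p.2 ∧ f q.1 = g q.2

/-- Connectedness in the fibre product of two walks. -/
def Conn (n m : ℕ) (f g : ℕ → ℕ) (p q : ℕ × ℕ) : Prop := Relation.ReflTransGen (FP n m f g) p q

theorem Conn.refl {n m : ℕ} {f g : ℕ → ℕ} (p : ℕ × ℕ) : Conn n m f g p p :=
  Relation.ReflTransGen.refl

theorem Conn.trans {n m : ℕ} {f g : ℕ → ℕ} {p q r : ℕ × ℕ} (h1 : Conn n m f g p q)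
    (h2 : Conn n m f g q r) : Conn n m f g p r :=
  Relation.ReflTransGen.trans h1 h2

theorem Conn.single {n m : ℕ} {f g : ℕ → ℕ} {p q : ℕ × ℕ} (h : FP n m f g p q) :
    Conn n m f g p q :=
  Relation.ReflTransGen.single h

theorem Conn.symm {n m : ℕ} {f g : ℕ → ℕ} {p q : ℕ × ℕ} (h : Conn n m f g p q) :
    Conn n m f g q p := by
  induction h with
  | refl => exact Conn.refl _
  | tail _ hbc ih =>
    refine Conn.trans (Conn.single ?_) ih
    unfold FP Adj at *
    tauto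

theorem Conn.swap {n m : ℕ} {f g : ℕ → ℕ} {p q : ℕ × ℕ} (h : Conn n m f g p q) :
    Conn m n g f p.swap q.swap := by
  induction h with
  | refl => exact Conn.refl _
  | tail _ hbc ih =>
    refine Conn.trans ih (Conn.single ?_)
    unfold FP at *
    simp only [Prod.fst_swap, Prod.snd_swap]
    obtain ⟨h1, h2, h3, h4, h5, h6, h7, h8⟩ := hbc
    exact ⟨h2, h1, h4, h3, h6, h5, h7.symm, h8.symm⟩

theorem IsWalk.adj {n : ℕ} {f : ℕ → ℕ} (hf : IsWalk n f) {a b : ℕ} (ha : a ≤ n) (hb : b ≤ n)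
    (hab : Adj a b) : Adj (f a) (f b) := by
  unfold Adj at hab
  rcases Nat.lt_trichotomy a b with h | h | h
  · have : b = a + 1 := by omega
    subst this
    exact hf a (by omega)
  · subst h; unfold Adj; omega
  · have : a = b + 1 := by omega
    subst this
    have := hf b (by omega)
    unfold Adj at *; omega

/-- First hitting time going from `j0` towards `j1`. -/
theorem first_hit {m : ℕ} {g : ℕ → ℕ} (hg : IsWalk m g) (M : ℕ) :
    ∀ (d j0 j1 : ℕ), j0 ≤ m → j1 ≤ m → max j0 j1 - min j0 j1 = d → g j0 ≤ M → M ≤ g j1 →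
      ∃ j, Btw j0 j1 j ∧ g j = M ∧ ∀ x, Btw j0 j x → g x ≤ M := by
  intro d
  induction d with
  | zero =>
    intro j0 j1 h0 h1 hd hl hu
    have : j0 = j1 := by omega
    subst this
    refine ⟨j0, by unfold Btw; omega, by omega, fun x hx => ?_⟩
    have : x = j0 := by unfold Btw at hx; omega
    subst this; omega
  | succ d ih =>
    intro j0 j1 h0 h1 hd hl hu
    by_cases hM : g j0 = M
    · refine ⟨j0, by unfold Btw; omega, hM, fun x hx => ?_⟩
      have : x = j0 := by unfold Btw at hx; omega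
      subst this; omega
    · set j0' := if j0 < j1 then j0 + 1 else j0 - 1 with hj0'
      have hb : j0' ≤ m := by rw [hj0']; split_ifs <;> omega
      have hadj : Adj j0 j0' := by rw [hj0']; unfold Adj; split_ifs <;> omega
      have h2 := hg.adj h0 hb hadj
      obtain ⟨j, hj1, hj2, hj3⟩ := ih j0' j1 hb h1 (by rw [hj0']; split_ifs <;> omega)
        (by unfold Adj at h2; omega) hu
      refine ⟨j, ?_, hj2, fun x hx => ?_⟩
      · unfold Btw at *; rw [hj0'] at hj1; split_ifs at hj1 <;> omega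
      · by_cases hx0 : x = j0
        · subst hx0; exact hl
        · apply hj3
          unfold Btw at *; rw [hj0'] at hj1 ⊢; split_ifs at hj1 ⊢ <;> omega

theorem exists_max_btw (f : ℕ → ℕ) (a b : ℕ) :
    ∃ i, Btw a b i ∧ ∀ x, Btw a b x → f x ≤ f i := by
  obtain ⟨i, hi, hmax⟩ := (Finset.Icc (min a b) (max a b)).exists_max_image f
    ⟨min a b, by simp⟩
  refine ⟨i, by simpa [Btw] using hi, fun x hx => hmax x (by simpa [Btw] using hx)⟩

theorem exists_min_btw (f : ℕ → ℕ) (a b : ℕ) :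
    ∃ i, Btw a b i ∧ ∀ x, Btw a b x → f i ≤ f x := by
  obtain ⟨i, hi, hmax⟩ := (Finset.Icc (min a b) (max a b)).exists_min_image f
    ⟨min a b, by simp⟩
  refine ⟨i, by simpa [Btw] using hi, fun x hx => hmax x (by simpa [Btw] using hx)⟩

/-- Statement of mountain climbing for total index distance at most `d`. -/
def MCUpTo (d : ℕ) : Prop :=
  ∀ (n m : ℕ) (f g : ℕ → ℕ), IsWalk n f → IsWalk m g → ∀ (i0 i1 j0 j1 : ℕ),
    i0 ≤ n → i1 ≤ n → j0 ≤ m → j1 ≤ m →
    (max i0 i1 - min i0 i1) + (max j0 j1 - min j0 j1) < d →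
    f i0 = g j0 → f i1 = g j1 →
    (∀ i, Btw i0 i1 i → f i0 ≤ f i ∧ f i ≤ f i1) →
    (∀ j, Btw j0 j1 j → g j0 ≤ g j ∧ g j ≤ g j1) →
    Conn n m f g (i0, j0) (i1, j1)

theorem mc_return {d : ℕ} (ih : MCUpTo d) (n m : ℕ) (f g : ℕ → ℕ) (hf : IsWalk n f)
    (hg : IsWalk m g) (i0 i1 j0 j1 : ℕ) (h1 : i0 ≤ n) (h2 : i1 ≤ n) (h3 : j0 ≤ m) (h4 : j1 ≤ m)
    (hd : (max i0 i1 - min i0 i1) + (max j0 j1 - min j0 j1) < d + 1)
    (e0 : f i0 = g j0) (e1 : f i1 = g j1)
    (bf : ∀ i, Btw i0 i1 i → f i0 ≤ f i ∧ f i ≤ f i1)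
    (bg : ∀ j, Btw j0 j1 j → g j0 ≤ g j ∧ g j ≤ g j1)
    (i' : ℕ) (hi' : Btw i0 i1 i') (hne0 : i' ≠ i0) (hne1 : i' ≠ i1) (hv : f i' = f i0) :
    Conn n m f g (i0, j0) (i1, j1) := by
  obtain ⟨i2, hi2, hmax⟩ := exists_max_btw f i0 i'
  have hi2' : Btw i0 i1 i2 := by unfold Btw at *; omega
  obtain ⟨j2, hj2, hv2, hle⟩ := first_hit hg (f i2) _ j0 j1 h3 h4 rfl
    (by have := (bf i2 hi2').1; omega) (by have := (bf i2 hi2').2; omega)
  have hi2n : i2 ≤ n := by unfold Btw at *; omega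
  have hi'n : i' ≤ n := by unfold Btw at *; omega
  have hj2m : j2 ≤ m := by unfold Btw at *; omega
  have bg2 : ∀ j, Btw j0 j2 j → g j0 ≤ g j ∧ g j ≤ g j2 := by
    intro j hj
    exact ⟨(bg j (by unfold Btw at *; omega)).1, by rw [hv2]; exact hle j hj⟩
  have c1 : Conn n m f g (i0, j0) (i2, j2) := by
    refine ih n m f g hf hg i0 i2 j0 j2 h1 hi2n h3 hj2m (by unfold Btw at *; omega) e0 hv2.symm
      (fun i hi => ?_) bg2
    exact ⟨(bf i (by unfold Btw at *; omega)).1, hmax i (by unfold Btw at *; omega)⟩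
  have c2 : Conn n m f g (i', j0) (i2, j2) := by
    refine ih n m f g hf hg i' i2 j0 j2 hi'n hi2n h3 hj2m (by unfold Btw at *; omega)
      (hv.trans e0) hv2.symm (fun i hi => ?_) bg2
    exact ⟨by rw [hv]; exact (bf i (by unfold Btw at *; omega)).1,
      hmax i (by unfold Btw at *; omega)⟩
  have c3 : Conn n m f g (i', j0) (i1, j1) := by
    refine ih n m f g hf hg i' i1 j0 j1 hi'n h2 h3 h4 (by unfold Btw at *; omega)
      (hv.trans e0) e1 (fun i hi => ?_) bg
    rw [hv]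
    exact bf i (by unfold Btw at *; omega)
  exact (c1.trans c2.symm).trans c3

theorem mcUpTo (d : ℕ) : MCUpTo d := by
  induction d with
  | zero => intro n m f g _ _ i0 i1 j0 j1 _ _ _ _ hd; omega
  | succ d ih =>
    intro n m f g hf hg i0 i1 j0 j1 h1 h2 h3 h4 hd e0 e1 bf bg
    by_cases hA : ∃ i', Btw i0 i1 i' ∧ i' ≠ i0 ∧ i' ≠ i1 ∧ f i' = f i0
    · obtain ⟨i', a1, a2, a3, a4⟩ := hA
      exact mc_return ih n m f g hf hg i0 i1 j0 j1 h1 h2 h3 h4 hd e0 e1 bf bg i' a1 a2 a3 a4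
    by_cases hB : ∃ j', Btw j0 j1 j' ∧ j' ≠ j0 ∧ j' ≠ j1 ∧ g j' = g j0
    · obtain ⟨j', a1, a2, a3, a4⟩ := hB
      exact (mc_return ih m n g f hg hf j0 j1 i0 i1 h3 h4 h1 h2 (by omega) e0.symm e1.symm bg bf
        j' a1 a2 a3 a4).swap
    push Not at hA hB
    set i0' := if i0 < i1 then i0 + 1 else if i0 = i1 then i0 else i0 - 1 with hi0'
    set j0' := if j0 < j1 then j0 + 1 else if j0 = j1 then j0 else j0 - 1 with hj0'
    have hib : Btw i0 i1 i0' := by rw [hi0']; unfold Btw; split_ifs <;> omega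
    have hjb : Btw j0 j1 j0' := by rw [hj0']; unfold Btw; split_ifs <;> omega
    have hia : Adj i0 i0' := by rw [hi0']; unfold Adj; split_ifs <;> omega
    have hja : Adj j0 j0' := by rw [hj0']; unfold Adj; split_ifs <;> omega
    have hin : i0' ≤ n := by unfold Btw at hib; omega
    have hjm : j0' ≤ m := by unfold Btw at hjb; omega
    have fa := hf.adj h1 hin hia
    have ga := hg.adj h3 hjm hja
    by_cases hab : f i0 = f i1
    · -- all values agree, both index ranges have length at most one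
      have hi1 : i0' = i1 := by
        by_contra hne
        have hne0 : i0' ≠ i0 := by rw [hi0'] at hne ⊢; split_ifs at hne ⊢ <;> omega
        have := bf i0' hib
        exact hA i0' hib hne0 hne (by omega)
      have hj1 : j0' = j1 := by
        by_contra hne
        have hne0 : j0' ≠ j0 := by rw [hj0'] at hne ⊢; split_ifs at hne ⊢ <;> omega
        have := bg j0' hjb
        exact hB j0' hjb hne0 hne (by omega)
      exact Conn.single ⟨hi1 ▸ hia, hj1 ▸ hja, h1, h3, h2, h4, e0, e1⟩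
    · have hi01 : i0 ≠ i1 := fun h => hab (by rw [h])
      have hj01 : j0 ≠ j1 := fun h => hab (by rw [e0, e1, h])
      have hlt : f i0 < f i1 := by
        have := (bf i1 (by unfold Btw; omega)).1
        omega
      have pf : ∀ i, Btw i0 i1 i → i ≠ i0 → f i0 < f i := by
        intro i hi hne
        by_cases h : i = i1
        · rw [h]; exact hlt
        · have := hA i hi hne h
          have := (bf i hi).1
          omega
      have pg : ∀ j, Btw j0 j1 j → j ≠ j0 → g j0 < g j := by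
        intro j hj hne
        by_cases h : j = j1
        · rw [h]; omega
        · have := hB j hj hne h
          have := (bg j hj).1
          omega
      have hne0 : i0' ≠ i0 := by rw [hi0']; split_ifs <;> omega
      have hne1 : j0' ≠ j0 := by rw [hj0']; split_ifs <;> omega
      have v1 := pf i0' hib hne0
      have v2 := pg j0' hjb hne1
      have e' : f i0' = g j0' := by unfold Adj at fa ga; omega
      refine Conn.trans (Conn.single (q := (i0', j0')) ⟨hia, hja, h1, h3, hin, hjm, e0, e'⟩) ?_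
      refine ih n m f g hf hg i0' i1 j0' j1 hin h2 hjm h4 ?_ e' e1 (fun i hi => ?_)
        (fun j hj => ?_)
      · rw [hi0', hj0']; split_ifs <;> omega
      · have hb : Btw i0 i1 i ∧ i ≠ i0 := by
          rw [hi0'] at hi; unfold Btw at *; split_ifs at hi <;> omega
        have := pf i hb.1 hb.2
        have := (bf i hb.1).2
        unfold Adj at fa; omega
      · have hb : Btw j0 j1 j ∧ j ≠ j0 := by
          rw [hj0'] at hj; unfold Btw at *; split_ifs at hj <;> omega
        have := pg j hb.1 hb.2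
        have := (bg j hb.1).2
        unfold Adj at ga; omega

/-- Discrete mountain climbing. -/
theorem mc {n m : ℕ} {f g : ℕ → ℕ} (hf : IsWalk n f) (hg : IsWalk m g) {i0 i1 j0 j1 : ℕ}
    (h1 : i0 ≤ n) (h2 : i1 ≤ n) (h3 : j0 ≤ m) (h4 : j1 ≤ m)
    (e0 : f i0 = g j0) (e1 : f i1 = g j1)
    (bf : ∀ i, Btw i0 i1 i → f i0 ≤ f i ∧ f i ≤ f i1)
    (bg : ∀ j, Btw j0 j1 j → g j0 ≤ g j ∧ g j ≤ g j1) :
    Conn n m f g (i0, j0) (i1, j1) :=
  mcUpTo _ n m f g hf hg i0 i1 j0 j1 h1 h2 h3 h4 (Nat.lt_succ_self _) e0 e1 bf bg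

/-- The chain of images of the initial segments of a walk. -/
def FRec (n : ℕ) (f : ℕ → ℕ) : Set (Set ℕ) := {S | ∃ i ≤ n, S = f '' Iic i}

theorem first_times {n m : ℕ} {f g : ℕ → ℕ} (hFR : FRec n f = FRec m g) {i j v : ℕ}
    (hi : i ≤ n) (hj : j ≤ m) (hv : v ∈ f '' Iic i) (hv' : v ∈ g '' Iic j) :
    ∃ a b, a ≤ i ∧ b ≤ j ∧ f a = v ∧ g b = v ∧ f '' Iic a = g '' Iic b ∧
      (∀ s ≤ i, f s = v → a ≤ s) := by
  classical
  have e1 : ∃ a, f a = v := by obtain ⟨a, _, h⟩ := hv; exact ⟨a, h⟩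
  have e2 : ∃ a, g a = v := by obtain ⟨a, _, h⟩ := hv'; exact ⟨a, h⟩
  have a1 : Nat.find e1 ≤ i := by
    obtain ⟨a, ha, h⟩ := hv; exact (Nat.find_min' e1 h).trans ha
  have a2 : Nat.find e2 ≤ j := by
    obtain ⟨a, ha, h⟩ := hv'; exact (Nat.find_min' e2 h).trans ha
  refine ⟨Nat.find e1, Nat.find e2, a1, a2, Nat.find_spec e1, Nat.find_spec e2, ?_,
    fun s _ hs => Nat.find_min' e1 hs⟩
  apply Subset.antisymm
  · have : g '' Iic (Nat.find e2) ∈ FRec n f := by
      rw [hFR]; exact ⟨_, a2.trans hj, rfl⟩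
    obtain ⟨c, -, hc⟩ := this
    have hvc : v ∈ f '' Iic c := by rw [← hc]; exact ⟨_, self_mem_Iic, Nat.find_spec e2⟩
    obtain ⟨s, hs, hs'⟩ := hvc
    rw [hc]
    exact image_mono (Iic_subset_Iic.mpr ((Nat.find_min' e1 hs').trans hs))
  · have : f '' Iic (Nat.find e1) ∈ FRec m g := by
      rw [← hFR]; exact ⟨_, a1.trans hi, rfl⟩
    obtain ⟨c, -, hc⟩ := this
    have hvc : v ∈ g '' Iic c := by rw [← hc]; exact ⟨_, self_mem_Iic, Nat.find_spec e1⟩
    obtain ⟨s, hs, hs'⟩ := hvc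
    rw [hc]
    exact image_mono (Iic_subset_Iic.mpr ((Nat.find_min' e2 hs').trans hs))

theorem FRec.start {n m : ℕ} {f g : ℕ → ℕ} (hFR : FRec n f = FRec m g) : f 0 = g 0 := by
  have : f '' Iic 0 ∈ FRec m g := by rw [← hFR]; exact ⟨0, Nat.zero_le _, rfl⟩
  obtain ⟨c, -, hc⟩ := this
  have : g 0 ∈ f '' Iic 0 := by rw [hc]; exact ⟨0, Nat.zero_le _, rfl⟩
  obtain ⟨s, hs, hs'⟩ := this
  have : s = 0 := by simpa using hs
  subst this; exact hs'

theorem FRec.total {n m : ℕ} {f g : ℕ → ℕ} (hFR : FRec n f = FRec m g) :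
    f '' Iic n = g '' Iic m := by
  apply Subset.antisymm
  · have : f '' Iic n ∈ FRec m g := by rw [← hFR]; exact ⟨n, le_rfl, rfl⟩
    obtain ⟨c, hc1, hc⟩ := this
    rw [hc]; exact image_mono (Iic_subset_Iic.mpr hc1)
  · have : g '' Iic m ∈ FRec n f := by rw [hFR]; exact ⟨m, le_rfl, rfl⟩
    obtain ⟨c, hc1, hc⟩ := this
    rw [hc]; exact image_mono (Iic_subset_Iic.mpr hc1)

theorem conn_record {n m : ℕ} {f g : ℕ → ℕ} (hf : IsWalk n f) (hg : IsWalk m g)
    (hFR : FRec n f = FRec m g) :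
    ∀ i j, i ≤ n → j ≤ m → f i = g j → f '' Iic i = g '' Iic j →
      ((∀ s ≤ i, f s ≤ f i) ∨ (∀ s ≤ i, f i ≤ f s)) → Conn n m f g (0, 0) (i, j) := by
  intro i
  induction i using Nat.strong_induction_on with
  | _ i ih =>
    intro j hi hj e him hext
    have tr : ∀ s ≤ j, ∃ r ≤ i, f r = g s := by
      intro s hs
      have : g s ∈ f '' Iic i := by rw [him]; exact ⟨s, hs, rfl⟩
      obtain ⟨r, hr, hr'⟩ := this
      exact ⟨r, hr, hr'⟩
    rcases hext with hext | hext
    · obtain ⟨i2, hi2, hmin⟩ := exists_min_btw f 0 i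
      have hi2' : i2 ≤ i := by unfold Btw at hi2; omega
      have hmin' : ∀ s ≤ i, f i2 ≤ f s := fun s hs => hmin s (by unfold Btw; omega)
      obtain ⟨a, b, ha, hb, fa, gb, hab, hfirst⟩ := first_times hFR hi hj (v := f i2)
        ⟨i2, hi2', rfl⟩ (by rw [← him]; exact ⟨i2, hi2', rfl⟩)
      have c2 : ∀ a' b', a' ≤ i → b' ≤ j → f a' = f i2 → g b' = f i2 →
          Conn n m f g (a', b') (i, j) := by
        intro a' b' ha' hb' fa' gb'
        refine mc hf hg (by omega) hi (by omega) hj (by omega) e (fun s hs => ?_)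
          (fun s hs => ?_)
        · have hs' : s ≤ i := by unfold Btw at hs; omega
          exact ⟨by rw [fa']; exact hmin' s hs', hext s hs'⟩
        · have hs' : s ≤ j := by unfold Btw at hs; omega
          obtain ⟨r, hr, hr'⟩ := tr s hs'
          rw [← hr', gb', ← e]
          exact ⟨hmin' r hr, hext r hr⟩
      by_cases hai : a < i
      · refine (ih a hai b (by omega) (by omega) (by omega) hab (Or.inr fun s hs => ?_)).trans
          (c2 a b ha hb fa gb)
        rw [fa]; exact hmin' s (by omega)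
      · have hai' : a = i := by omega
        have h0 : f 0 = f i2 := by
          have := hmin' 0 (Nat.zero_le _)
          have := hext 0 (Nat.zero_le _)
          rw [hai'] at fa; omega
        exact c2 0 0 (Nat.zero_le _) (Nat.zero_le _) h0 (by rw [← FRec.start hFR]; exact h0)
    · obtain ⟨i2, hi2, hmax⟩ := exists_max_btw f 0 i
      have hi2' : i2 ≤ i := by unfold Btw at hi2; omega
      have hmax' : ∀ s ≤ i, f s ≤ f i2 := fun s hs => hmax s (by unfold Btw; omega)
      obtain ⟨a, b, ha, hb, fa, gb, hab, hfirst⟩ := first_times hFR hi hj (v := f i2)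
        ⟨i2, hi2', rfl⟩ (by rw [← him]; exact ⟨i2, hi2', rfl⟩)
      have c2 : ∀ a' b', a' ≤ i → b' ≤ j → f a' = f i2 → g b' = f i2 →
          Conn n m f g (a', b') (i, j) := by
        intro a' b' ha' hb' fa' gb'
        refine Conn.symm (mc hf hg hi (by omega) hj (by omega) e (by omega) (fun s hs => ?_)
          (fun s hs => ?_))
        · have hs' : s ≤ i := by unfold Btw at hs; omega
          exact ⟨hext s hs', by rw [fa']; exact hmax' s hs'⟩
        · have hs' : s ≤ j := by unfold Btw at hs; omega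
          obtain ⟨r, hr, hr'⟩ := tr s hs'
          rw [← hr', gb', ← e]
          exact ⟨hext r hr, hmax' r hr⟩
      by_cases hai : a < i
      · refine (ih a hai b (by omega) (by omega) (by omega) hab (Or.inl fun s hs => ?_)).trans
          (c2 a b ha hb fa gb)
        rw [fa]; exact hmax' s (by omega)
      · have hai' : a = i := by omega
        have h0 : f 0 = f i2 := by
          have := hmax' 0 (Nat.zero_le _)
          have := hext 0 (Nat.zero_le _)
          rw [hai'] at fa; omega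
        exact c2 0 0 (Nat.zero_le _) (Nat.zero_le _) h0 (by rw [← FRec.start hFR]; exact h0)

theorem IsWalk.rev {n : ℕ} {f : ℕ → ℕ} (hf : IsWalk n f) : IsWalk n (fun s => f (n - s)) := by
  intro i hi
  exact hf.adj (by omega) (by omega) (by unfold Adj; omega)

theorem Conn.unrev {n m : ℕ} {f g : ℕ → ℕ} {p q : ℕ × ℕ}
    (h : Conn n m (fun s => f (n - s)) (fun s => g (m - s)) p q) :
    Conn n m f g (n - p.1, m - p.2) (n - q.1, m - q.2) := by
  induction h with
  | refl => exact Conn.refl _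
  | tail _ hbc ih =>
    refine Conn.trans ih (Conn.single ?_)
    obtain ⟨h1, h2, h3, h4, h5, h6, h7, h8⟩ := hbc
    refine ⟨?_, ?_, ?_, ?_, ?_, ?_, h7, h8⟩
    all_goals (unfold Adj at *; simp only; omega)

/-- Generalized mountain climbing: walks with the same forward and backward record chains. -/
theorem gmc {n m : ℕ} {f g : ℕ → ℕ} (hf : IsWalk n f) (hg : IsWalk m g)
    (hFR : FRec n f = FRec m g)
    (hBR : FRec n (fun s => f (n - s)) = FRec m (fun s => g (m - s))) :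
    Conn n m f g (0, 0) (n, m) := by
  have htot := FRec.total hFR
  have htot' := FRec.total hBR
  obtain ⟨i1, hi1, hmin⟩ := exists_min_btw f 0 n
  obtain ⟨i2, hi2, hmax⟩ := exists_max_btw f 0 n
  have hi1' : i1 ≤ n := by unfold Btw at hi1; omega
  have hi2' : i2 ≤ n := by unfold Btw at hi2; omega
  have hmin' : ∀ s ≤ n, f i1 ≤ f s := fun s hs => hmin s (by unfold Btw; omega)
  have hmax' : ∀ s ≤ n, f s ≤ f i2 := fun s hs => hmax s (by unfold Btw; omega)
  obtain ⟨a, b, ha, hb, fa, gb, hab, -⟩ := first_times hFR le_rfl le_rfl (v := f i1)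
    ⟨i1, hi1', rfl⟩ (by rw [← htot]; exact ⟨i1, hi1', rfl⟩)
  have hv : f i2 ∈ (fun s => f (n - s)) '' Iic n :=
    ⟨n - i2, by simp, by simp only; congr 1; omega⟩
  obtain ⟨a', b', ha', hb', fa', gb', hab', -⟩ := first_times hBR le_rfl le_rfl (v := f i2)
    hv (by rw [← htot']; exact hv)
  have c1 := conn_record hf hg hFR a b ha hb (by omega) hab
    (Or.inr fun s hs => by rw [fa]; exact hmin' s (by omega))
  have c2 := (conn_record hf.rev hg.rev hBR a' b' ha' hb' (by omega) hab'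
    (Or.inl fun s hs => by rw [fa']; exact hmax' _ (by omega))).unrev
  simp only [Nat.sub_zero] at c2 fa' gb'
  have tr : ∀ s ≤ m, ∃ r ≤ n, f r = g s := by
    intro s hs
    have : g s ∈ f '' Iic n := by rw [htot]; exact ⟨s, hs, rfl⟩
    obtain ⟨r, hr, hr'⟩ := this
    exact ⟨r, hr, hr'⟩
  have c3 : Conn n m f g (a, b) (n - a', m - b') := by
    refine mc hf hg ha (by omega) hb (by omega) (by omega) (by omega) (fun s hs => ?_)
      (fun s hs => ?_)
    · have hs' : s ≤ n := by unfold Btw at hs; omega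
      rw [fa, fa']; exact ⟨hmin' s hs', hmax' s hs'⟩
    · have hs' : s ≤ m := by unfold Btw at hs; omega
      obtain ⟨r, hr, hr'⟩ := tr s hs'
      rw [← hr', gb, gb']; exact ⟨hmin' r hr, hmax' r hr⟩
  exact (c1.trans c3).trans c2.symm

/-- A chain of related elements as a function. -/
theorem exists_fun_of_rtg {α : Type*} {R : α → α → Prop} {a b : α}
    (h : Relation.ReflTransGen R a b) :
    ∃ (N : ℕ) (p : ℕ → α), p 0 = a ∧ p N = b ∧ ∀ s < N, R (p s) (p (s + 1)) := by
  induction h with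
  | refl => exact ⟨0, fun _ => a, rfl, rfl, fun s hs => absurd hs (Nat.not_lt_zero _)⟩
  | @tail b c _ hbc ih =>
    obtain ⟨N, p, h0, hN, hs⟩ := ih
    refine ⟨N + 1, fun s => if s ≤ N then p s else c, by simp [h0], by simp, fun s hs' => ?_⟩
    by_cases h : s < N
    · simp only [h.le, if_true, Nat.succ_le_of_lt h]
      exact hs s h
    · have : s = N := by omega
      subst this
      simp [hN, hbc]

/-- `k` is a walk of length `N` from `0` to `n` inside `0..n`. -/
def Pat (N n : ℕ) (k : ℕ → ℕ) : Prop := k 0 = 0 ∧ k N = n ∧ IsWalk N k ∧ ∀ s ≤ N, k s ≤ n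

theorem gmc_pat {n m : ℕ} {f g : ℕ → ℕ} (hf : IsWalk n f) (hg : IsWalk m g)
    (hFR : FRec n f = FRec m g)
    (hBR : FRec n (fun s => f (n - s)) = FRec m (fun s => g (m - s))) :
    ∃ (N : ℕ) (k l : ℕ → ℕ), Pat N n k ∧ Pat N m l ∧ ∀ s ≤ N, f (k s) = g (l s) := by
  obtain ⟨N, p, h0, hN, hs⟩ := exists_fun_of_rtg (gmc hf hg hFR hBR)
  have key : ∀ s ≤ N, (p s).1 ≤ n ∧ (p s).2 ≤ m ∧ f (p s).1 = g (p s).2 := by
    intro s hsN
    rcases s with _ | s
    · rw [h0]; exact ⟨Nat.zero_le _, Nat.zero_le _, FRec.start hFR⟩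
    · obtain ⟨-, -, -, -, h5, h6, -, h8⟩ := hs s (by omega)
      exact ⟨h5, h6, h8⟩
  refine ⟨N, fun s => (p s).1, fun s => (p s).2,
    ⟨by simp [h0], by simp [hN], fun s h => (hs s h).1, fun s h => (key s h).1⟩,
    ⟨by simp [h0], by simp [hN], fun s h => (hs s h).2.1, fun s h => (key s h).2.1⟩,
    fun s h => (key s h).2.2⟩

theorem Pat.image_Iic {N n : ℕ} {k : ℕ → ℕ} (hk : Pat N n k) :
    ∀ s ≤ N, ∃ M ≤ n, k '' Iic s = Iic M := by
  obtain ⟨h0, -, hw, hb⟩ := hk
  intro s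
  induction s with
  | zero =>
    intro _
    refine ⟨0, Nat.zero_le _, ?_⟩
    ext x; simp [h0, eq_comm]
  | succ s ih =>
    intro hs
    obtain ⟨M, hM, hI⟩ := ih (by omega)
    have hks : k s ≤ M := by
      have : k s ∈ Iic M := by rw [← hI]; exact ⟨s, self_mem_Iic, rfl⟩
      exact this
    have ha := hw s (by omega)
    have hb' := hb (s + 1) hs
    refine ⟨max M (k (s + 1)), by omega, ?_⟩
    have : Iic (s + 1) = insert (s + 1) (Iic s) := by
      ext x; simp only [mem_Iic, mem_insert_iff]; omega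
    rw [this, image_insert_eq, hI]
    ext x
    unfold Adj at ha
    simp only [mem_Iic, mem_insert_iff]; omega

theorem Pat.surj {N n : ℕ} {k : ℕ → ℕ} (hk : Pat N n k) {i : ℕ} (hi : i ≤ n) :
    ∃ s ≤ N, k s = i ∧ ∀ x ≤ s, k x ≤ i := by
  obtain ⟨h0, hN, hw, hb⟩ := hk
  obtain ⟨j, hj, hj1, hj2⟩ := first_hit hw i _ 0 N (Nat.zero_le _) le_rfl rfl (by omega)
    (by omega)
  exact ⟨j, by unfold Btw at hj; omega, hj1, fun x hx => hj2 x (by unfold Btw; omega)⟩

theorem FRec.comp_pat {N n : ℕ} {k : ℕ → ℕ} (hk : Pat N n k) (f : ℕ → ℕ) :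
    FRec N (fun s => f (k s)) = FRec n f := by
  ext S
  constructor
  · rintro ⟨s, hs, rfl⟩
    obtain ⟨M, hM, hI⟩ := hk.image_Iic s hs
    exact ⟨M, hM, by rw [← hI, image_image]⟩
  · rintro ⟨i, hi, rfl⟩
    obtain ⟨s, hs, h1, h2⟩ := hk.surj hi
    obtain ⟨M, hM, hI⟩ := hk.image_Iic s hs
    have e : M = i := by
      have a1 : i ∈ Iic M := by rw [← hI]; exact ⟨s, self_mem_Iic, h1⟩
      have a2 : M ∈ k '' Iic s := by rw [hI]; exact self_mem_Iic
      obtain ⟨x, hx, hx'⟩ := a2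
      have := h2 x hx
      have : i ≤ M := a1
      omega
    exact ⟨s, hs, by rw [← e, ← hI, image_image]⟩

theorem FRec.congr {n : ℕ} {f g : ℕ → ℕ} (h : ∀ s ≤ n, f s = g s) : FRec n f = FRec n g := by
  have key : ∀ i ≤ n, f '' Iic i = g '' Iic i := fun i hi =>
    image_congr fun x hx => h x (le_trans hx hi)
  ext S
  constructor
  · rintro ⟨i, hi, rfl⟩; exact ⟨i, hi, key i hi⟩
  · rintro ⟨i, hi, rfl⟩; exact ⟨i, hi, (key i hi).symm⟩

theorem Pat.rev {N n : ℕ} {k : ℕ → ℕ} (hk : Pat N n k) : Pat N n (fun s => n - k (N - s)) := by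
  obtain ⟨h0, hN, hw, hb⟩ := hk
  refine ⟨by simp [hN], by simp [h0], fun s hs => ?_, fun s _ => by simp⟩
  have := hw.rev s hs
  have h1 := hb (N - s) (by omega)
  have h2 := hb (N - (s + 1)) (by omega)
  unfold Adj at *
  simp only at this ⊢
  omega

theorem FRec.rev_comp_pat {N n : ℕ} {k : ℕ → ℕ} (hk : Pat N n k) (f : ℕ → ℕ) :
    FRec N (fun s => f (k (N - s))) = FRec n (fun s => f (n - s)) := by
  rw [← FRec.comp_pat hk.rev (fun s => f (n - s))]
  apply FRec.congr
  intro s hs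
  have := hk.2.2.2 (N - s) (by omega)
  congr 1
  omega

theorem FRec.map (n : ℕ) (f h : ℕ → ℕ) :
    FRec n (fun s => h (f s)) = (fun S => h '' S) '' FRec n f := by
  ext S
  constructor
  · rintro ⟨i, hi, rfl⟩
    exact ⟨f '' Iic i, ⟨i, hi, rfl⟩, by simp only [image_image]⟩
  · rintro ⟨T, ⟨i, hi, rfl⟩, rfl⟩
    exact ⟨i, hi, by simp only [image_image]⟩

end Pool.Agent.Lib.MP_4bbdcb_gt
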