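import Mathlib
import Pool.Agent.Lib.MP_4bbdcb_gt.Walk

/-!
Finite sequences, concatenation, reversal and the refinement relation.
-/

set_option autoImplicit false
set_option linter.unusedSimpArgs false

namespace Pool.Agent.Lib.MP_4bbdcb_gt

open Set

/-- A finite sequence `u 0, ..., u n`. -/
structure FS (W : Type) where
  n : ℕ
  u : ℕ → W

namespace FS

variable {W V : Type}

def cat (a b : FS W) : FS W :=
  ⟨a.n + b.n + 1, fun i => if i ≤ a.n then a.u i else b.u (i - a.n - 1)⟩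

def rev (a : FS W) : FS W := ⟨a.n, fun i => a.u (a.n - i)⟩

def map (w : W → V) (a : FS W) : FS V := ⟨a.n, fun i => w (a.u i)⟩

theorem cat_n (a b : FS W) : (cat a b).n = a.n + b.n + 1 := (rfl)
theorem cat_u (a b : FS W) (i : ℕ) :
    (cat a b).u i = if i ≤ a.n then a.u i else b.u (i - a.n - 1) := (rfl)
theorem rev_n (a : FS W) : (rev a).n = a.n := (rfl)
theorem rev_u (a : FS W) (i : ℕ) : (rev a).u i = a.u (a.n - i) := (rfl)
theorem map_n (w : W → V) (a : FS W) : (map w a).n = a.n := (rfl)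
theorem map_u (w : W → V) (a : FS W) (i : ℕ) : (map w a).u i = w (a.u i) := (rfl)

theorem ext' {a b : FS W} (h1 : a.n = b.n) (h2 : ∀ i, a.u i = b.u i) : a = b := by
  cases a; cases b
  simp only [FS.mk.injEq]
  exact ⟨h1, funext h2⟩

theorem cat_assoc (a b c : FS W) : cat (cat a b) c = cat a (cat b c) := by
  refine ext' (by simp only [cat_n]; omega) fun i => ?_
  simp only [cat_u, cat_n]
  split_ifs <;> first | rfl | (exfalso; omega) | (congr 1; omega)

theorem rev_cat (a b : FS W) : rev (cat a b) = cat (rev b) (rev a) := by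
  refine ext' (by simp only [cat_n, rev_n]; omega) fun i => ?_
  simp only [cat_u, cat_n, rev_u, rev_n]
  split_ifs <;> first | rfl | (exfalso; omega) | (congr 1; omega)

theorem map_cat (w : W → V) (a b : FS W) : map w (cat a b) = cat (map w a) (map w b) := by
  refine ext' (by simp only [cat_n, map_n]) fun i => ?_
  simp only [cat_u, map_u, map_n]
  split_ifs <;> rfl

theorem map_rev (w : W → V) (a : FS W) : map w (rev a) = rev (map w a) := rfl

@[simp] theorem cat_first (a b : FS W) : (cat a b).u 0 = a.u 0 := by simp [cat]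

@[simp] theorem cat_last (a b : FS W) : (cat a b).u (cat a b).n = b.u b.n := by
  simp only [cat]
  rw [if_neg (by omega)]
  congr 1; omega

@[simp] theorem rev_first (a : FS W) : (rev a).u 0 = a.u a.n := by simp [rev]

@[simp] theorem rev_last (a : FS W) : (rev a).u (rev a).n = a.u 0 := by simp [rev]

@[simp] theorem map_first (w : W → V) (a : FS W) : (map w a).u 0 = w (a.u 0) := rfl

@[simp] theorem map_last (w : W → V) (a : FS W) : (map w a).u (map w a).n = w (a.u a.n) := rfl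

/-- Consecutive terms are related. -/
def Ch (R : W → W → Prop) (a : FS W) : Prop := ∀ i < a.n, R (a.u i) (a.u (i + 1))

theorem Ch.cat {R : W → W → Prop} {a b : FS W} (ha : Ch R a) (hb : Ch R b)
    (hab : R (a.u a.n) (b.u 0)) : Ch R (cat a b) := by
  intro i hi
  simp only [cat_u, cat_n] at hi ⊢
  by_cases h1 : i + 1 ≤ a.n
  · rw [if_pos (by omega), if_pos h1]; exact ha i (by omega)
  · by_cases h2 : i ≤ a.n
    · have : i = a.n := by omega
      rw [if_pos h2, if_neg h1, this]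
      simpa using hab
    · rw [if_neg h2, if_neg h1]
      have := hb (i - a.n - 1) (by omega)
      rwa [show i - a.n - 1 + 1 = i + 1 - a.n - 1 by omega] at this

theorem Ch.rev {R : W → W → Prop} (hR : ∀ x y, R x y → R y x) {a : FS W} (ha : Ch R a) :
    Ch R (rev a) := by
  intro i hi
  simp only [rev_u, rev_n] at hi ⊢
  have := hR _ _ (ha (a.n - (i + 1)) (by omega))
  rwa [show a.n - (i + 1) + 1 = a.n - i by omega] at this

/-- The set of terms. -/
def im (a : FS W) : Set W := a.u '' Iic a.n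

theorem im_cat (a b : FS W) : im (cat a b) = im a ∪ im b := by
  ext x
  simp only [im, cat, mem_image, mem_Iic, mem_union]
  constructor
  · rintro ⟨i, hi, rfl⟩
    split_ifs with h
    · exact Or.inl ⟨i, h, rfl⟩
    · exact Or.inr ⟨_, by omega, rfl⟩
  · rintro (⟨i, hi, rfl⟩ | ⟨i, hi, rfl⟩)
    · exact ⟨i, by omega, by rw [if_pos hi]⟩
    · exact ⟨i + a.n + 1, by omega, by rw [if_neg (by omega)]; congr 1; omega⟩

theorem im_rev (a : FS W) : im (rev a) = im a := by
  ext x
  simp only [im, rev, mem_image, mem_Iic]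
  constructor
  · rintro ⟨i, hi, rfl⟩; exact ⟨_, by omega, rfl⟩
  · rintro ⟨i, hi, rfl⟩; exact ⟨a.n - i, by omega, by congr 1; omega⟩

theorem first_mem_im (a : FS W) : a.u 0 ∈ im a := ⟨0, Nat.zero_le _, rfl⟩

section Ref

variable [PseudoMetricSpace W]

/-- `b` follows a pattern in `a` from end to end, up to distance `ε`. -/
def Ref (ε : ℝ) (a b : FS W) : Prop :=
  ∃ k, Pat b.n a.n k ∧ ∀ s ≤ b.n, dist (b.u s) (a.u (k s)) ≤ ε

theorem Ref.mono {ε ε' : ℝ} {a b : FS W} (h : Ref ε a b) (hε : ε ≤ ε') : Ref ε' a b := by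
  obtain ⟨k, hk, hd⟩ := h
  exact ⟨k, hk, fun s hs => (hd s hs).trans hε⟩

theorem Ref.of_eq {a b : FS W} (hn : a.n = b.n) (hu : ∀ s ≤ b.n, b.u s = a.u s) : Ref 0 a b := by
  refine ⟨id, ⟨rfl, hn.symm, fun s _ => ?_, fun s hs => ?_⟩, fun s hs => ?_⟩
  · unfold Adj; simp only [id]; omega
  · simp only [id]; omega
  · simp [hu s hs]

theorem Ref.refl (a : FS W) : Ref 0 a a := Ref.of_eq rfl fun _ _ => rfl

theorem Ref.rev_rev (a : FS W) : Ref 0 (rev (rev a)) a :=
  Ref.of_eq rfl fun s hs => by simp only [rev]; congr 1; omega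

theorem Ref.trans {ε ε' : ℝ} {a b c : FS W} (h1 : Ref ε a b) (h2 : Ref ε' b c) :
    Ref (ε' + ε) a c := by
  obtain ⟨k, ⟨k0, kN, kw, kb⟩, hd⟩ := h1
  obtain ⟨l, ⟨l0, lN, lw, lb⟩, hd'⟩ := h2
  refine ⟨fun s => k (l s), ⟨by simp [l0, k0], by simp [lN, kN], fun s hs => ?_,
    fun s hs => kb _ (lb s hs)⟩, fun s hs => ?_⟩
  · exact kw.adj (lb s hs.le) (lb _ hs) (lw s hs)
  · exact (dist_triangle _ _ _).trans (add_le_add (hd' s hs) (hd _ (lb s hs)))

theorem Ref.cat {ε : ℝ} {a b a' b' : FS W} (h1 : Ref ε a a') (h2 : Ref ε b b') :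
    Ref ε (cat a b) (cat a' b') := by
  obtain ⟨k, ⟨k0, kN, kw, kb⟩, hd⟩ := h1
  obtain ⟨l, ⟨l0, lN, lw, lb⟩, hd'⟩ := h2
  refine ⟨fun s => if s ≤ a'.n then k s else l (s - a'.n - 1) + a.n + 1,
    ⟨by simp [k0], ?_, fun s hs => ?_, fun s hs => ?_⟩, fun s hs => ?_⟩
  · simp only [cat_u, cat_n]
    rw [if_neg (by omega), show a'.n + b'.n + 1 - a'.n - 1 = b'.n by omega, lN]
    omega
  · simp only [cat_u, cat_n] at hs ⊢
    by_cases h1 : s + 1 ≤ a'.n
    · rw [if_pos (by omega), if_pos h1]; exact kw s (by omega)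
    · by_cases h2 : s ≤ a'.n
      · have : s = a'.n := by omega
        rw [if_pos h2, if_neg h1, this, kN, show a'.n + 1 - a'.n - 1 = 0 by omega, l0]
        unfold Adj; omega
      · rw [if_neg h2, if_neg h1]
        have := lw (s - a'.n - 1) (by omega)
        rw [show s - a'.n - 1 + 1 = s + 1 - a'.n - 1 by omega] at this
        unfold Adj at *; omega
  · simp only [cat_u, cat_n] at hs ⊢
    split_ifs with h
    · have := kb s h; omega
    · have := lb (s - a'.n - 1) (by omega); omega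
  · simp only [cat_u, cat_n] at hs ⊢
    by_cases h : s ≤ a'.n
    · simp only [if_pos h, if_pos (kb s h)]; exact hd s h
    · simp only [if_neg h]
      rw [if_neg (by omega), show l (s - a'.n - 1) + a.n + 1 - a.n - 1 = l (s - a'.n - 1) by omega]
      exact hd' _ (by omega)

theorem Ref.rev {ε : ℝ} {a b : FS W} (h : Ref ε a b) : Ref ε (rev a) (rev b) := by
  obtain ⟨k, hk, hd⟩ := h
  refine ⟨fun s => a.n - k (b.n - s), hk.rev, fun s hs => ?_⟩
  simp only [rev_u, rev_n] at hs ⊢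
  have := hk.2.2.2 (b.n - s) (by omega)
  rw [show a.n - (a.n - k (b.n - s)) = k (b.n - s) by omega]
  exact hd _ (by omega)

theorem Ref.pump (a : FS W) : Ref 0 a (FS.cat (FS.cat a (FS.rev a)) a) := by
  refine ⟨fun s => if s ≤ a.n then s else if s ≤ a.n + a.n + 1 then a.n - (s - a.n - 1)
    else s - (a.n + a.n + 1) - 1, ⟨by simp, ?_, fun s hs => ?_, fun s hs => ?_⟩, fun s hs => ?_⟩
  · simp only [cat_u, cat_n, rev_u, rev_n]
    split_ifs <;> omega
  · simp only [cat_u, cat_n, rev_u, rev_n] at hs ⊢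
    unfold Adj
    split_ifs <;> omega
  · simp only [cat_u, cat_n, rev_u, rev_n] at hs ⊢
    split_ifs <;> omega
  · simp only [cat_u, cat_n, rev_u, rev_n] at hs ⊢
    split_ifs <;> first | simp | omega

end Ref

/-- Forward record chain. -/
def FR (a : FS ℕ) : Set (Set ℕ) := FRec a.n a.u

theorem FR_cat {a b : FS ℕ} (h : im b ⊆ im a) : FR (cat a b) = FR a := by
  have key : ∀ i ≤ a.n, (cat a b).u '' Iic i = a.u '' Iic i := by
    intro i hi
    apply image_congr
    intro x hx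
    have : x ≤ i := hx
    simp only [cat]; rw [if_pos (by omega)]
  ext S
  constructor
  · rintro ⟨i, hi, rfl⟩
    by_cases hia : i ≤ a.n
    · exact ⟨i, hia, key i hia⟩
    · refine ⟨a.n, le_rfl, Subset.antisymm ?_ ?_⟩
      · have : (cat a b).u '' Iic i ⊆ im (cat a b) := image_mono (Iic_subset_Iic.mpr hi)
        rw [im_cat, union_eq_self_of_subset_right h] at this
        exact this
      · rw [← key a.n le_rfl]
        exact image_mono (Iic_subset_Iic.mpr (by omega))
  · rintro ⟨i, hi, rfl⟩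
    exact ⟨i, by simp only [cat]; omega, (key i hi).symm⟩

theorem FR_rev_rev (a : FS ℕ) : FR (rev (rev a)) = FR a :=
  FRec.congr fun s hs => by simp only [rev] at hs ⊢; congr 1; omega

theorem FR_map (h : ℕ → ℕ) (a : FS ℕ) : FR (map h a) = (fun S => h '' S) '' FR a :=
  FRec.map a.n a.u h

theorem FR_rev_cat {a b : FS ℕ} (h : im a ⊆ im b) : FR (rev (cat a b)) = FR (rev b) := by
  rw [rev_cat, FR_cat (by rwa [im_rev, im_rev])]

/-- The walk from `i` down to `0` and then up to `k`. -/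
def sweep (k i : ℕ) : FS ℕ := ⟨i + k, fun s => if s ≤ i then i - s else s - i⟩

theorem sweep_ch (k i : ℕ) : Ch Adj (sweep k i) := by
  intro s hs
  simp only [sweep] at hs ⊢
  unfold Adj
  split_ifs <;> omega

theorem sweep_im {k i : ℕ} (hi : i ≤ k) : im (sweep k i) = Iic k := by
  ext x
  simp only [im, sweep, mem_image, mem_Iic]
  constructor
  · rintro ⟨s, hs, rfl⟩; split_ifs <;> omega
  · intro hx
    exact ⟨x + i, by omega, by split_ifs <;> omega⟩

theorem sweep_first (k i : ℕ) : (sweep k i).u 0 = i := by simp [sweep]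

theorem sweep_last (k i : ℕ) : (sweep k i).u (sweep k i).n = k := by
  simp only [sweep]; split_ifs <;> omega

theorem adj_symm (x y : ℕ) (h : Adj x y) : Adj y x := ⟨h.2, h.1⟩

theorem adj_refl (x : ℕ) : Adj x x := ⟨by omega, by omega⟩

/-- A walk with prescribed standard forward and backward record chains. -/
theorem exists_link {k i j : ℕ} (hi : i ≤ k) (hj : j ≤ k) :
    ∃ a : FS ℕ, Ch Adj a ∧ im a = Iic k ∧ FR a = FR (sweep k i) ∧ FR (rev a) = FR (sweep k j) := by
  refine ⟨cat (sweep k i) (rev (sweep k j)), ?_, ?_, ?_, ?_⟩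
  · refine (sweep_ch k i).cat ((sweep_ch k j).rev adj_symm) ?_
    rw [rev_first, sweep_last, sweep_last]; exact adj_refl _
  · rw [im_cat, im_rev, sweep_im hi, sweep_im hj, union_self]
  · exact FR_cat (by rw [im_rev, sweep_im hi, sweep_im hj])
  · rw [FR_rev_cat (by rw [im_rev, sweep_im hi, sweep_im hj]), FR_rev_rev]

theorem Ch.map_walk {a : FS ℕ} (ha : Ch Adj a) {k : ℕ} (hk : im a ⊆ Iic k) {h : ℕ → ℕ}
    (hh : IsWalk k h) : Ch Adj (map h a) := by
  intro s hs
  exact hh.adj (hk ⟨s, le_of_lt hs, rfl⟩) (hk ⟨s + 1, hs, rfl⟩) (ha s hs)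

/-- Lifting a walk along a bonding walk, keeping record chains. -/
theorem lift_walk {a b : FS ℕ} (ha : Ch Adj a) (hb : Ch Adj b) {k : ℕ} (hk : im b ⊆ Iic k)
    {h : ℕ → ℕ} (hh : IsWalk k h) (h1 : FR a = FR (map h b))
    (h2 : FR (rev a) = FR (rev (map h b))) :
    ∃ (c : FS ℕ) (p : ℕ → ℕ), Ch Adj c ∧ im c ⊆ Iic k ∧ FR c = FR b ∧ FR (rev c) = FR (rev b) ∧
      Pat c.n a.n p ∧ ∀ s ≤ c.n, a.u (p s) = h (c.u s) := by
  obtain ⟨N, p, l, hp, hl, he⟩ := gmc_pat (n := a.n) (m := b.n) (f := a.u)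
    (g := fun s => h (b.u s)) ha (hb.map_walk hk hh) h1 h2
  refine ⟨⟨N, fun s => b.u (l s)⟩, p, fun s hs => ?_, ?_, FRec.comp_pat hl _,
    FRec.rev_comp_pat hl _, hp, he⟩
  · exact IsWalk.adj (n := b.n) hb (hl.2.2.2 s (le_of_lt hs)) (hl.2.2.2 _ hs) (hl.2.2.1 s hs)
  · rintro x ⟨s, hs, rfl⟩
    exact hk ⟨l s, hl.2.2.2 s hs, rfl⟩

end FS

end Pool.Agent.Lib.MP_4bbdcb_gt
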