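import Mathlib
import Pool.Agent.Lib.MP_4bbdcb_gt.Seq

/-!
From a refining sequence of weak chains to a continuous image of a chainable continuum.
-/

set_option autoImplicit false

namespace Pool.Agent.Lib.MP_4bbdcb_gt

open Set Filter Topology

/-- `W` is a continuous image of a chainable continuum. -/
def WC (W : Type) [TopologicalSpace W] : Prop :=
  ∃ (Y : Type) (_ : MetricSpace Y), CompactSpace Y ∧ ConnectedSpace Y ∧
    (∀ ε : ℝ, ε > 0 → ∃ g : Y → ℝ, Continuous g ∧ ∀ r : ℝ, Metric.diam (g ⁻¹' {r}) < ε) ∧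
    ∃ f : Y → W, Continuous f ∧ Function.Surjective f

theorem isPreconnected_iInter_anti {X : Type*} [TopologicalSpace X] [T2Space X] (s : ℕ → Set X)
    (hc : ∀ n, IsCompact (s n)) (hp : ∀ n, IsPreconnected (s n)) (hs : Antitone s) :
    IsPreconnected (⋂ n, s n) := by
  have hcl : IsClosed (⋂ n, s n) := isClosed_iInter fun n => (hc n).isClosed
  have hcp : IsCompact (⋂ n, s n) := (hc 0).of_isClosed_subset hcl (iInter_subset _ 0)
  rw [isPreconnected_iff_subset_of_fully_disjoint_closed hcl]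
  intro u v hu hv huv hd
  obtain ⟨U, V, hU, hV, h1, h2, h3⟩ := SeparatedNhds.of_isCompact_isCompact
    (hcp.inter_right hu) (hcp.inter_right hv) (hd.mono inter_subset_right inter_subset_right)
  have hsub : (⋂ n, s n) ⊆ U ∪ V := fun x hx =>
    (huv hx).elim (fun h => Or.inl (h1 ⟨hx, h⟩)) fun h => Or.inr (h2 ⟨hx, h⟩)
  obtain ⟨i, hi⟩ := exists_subset_nhds_of_isCompact hs.directed_ge hc (U := U ∪ V)
    fun x hx => (hU.union hV).mem_nhds (hsub hx)
  rcases (hp i).subset_or_subset hU hV h3 hi with h | h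
  · left
    intro x hx
    refine (huv hx).elim id fun h' => ?_
    exact absurd (h2 ⟨hx, h'⟩) (disjoint_left.1 h3 (h (iInter_subset _ i hx)))
  · right
    intro x hx
    refine (huv hx).elim (fun h' => ?_) id
    exact absurd (h (iInter_subset _ i hx)) (disjoint_left.1 h3 (h1 ⟨hx, h'⟩))

theorem IsWalk.dist_le {N : ℕ} {h : ℕ → ℕ} (hw : IsWalk N h) :
    ∀ d i, i + d ≤ N → h (i + d) ≤ h i + d ∧ h i ≤ h (i + d) + d := by
  intro d
  induction d with
  | zero => intro i _; simp
  | succ d ih =>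
    intro i hi
    have h1 := ih i (by omega)
    have h2 := hw (i + d) (by omega)
    unfold Adj at h2
    rw [← add_assoc]
    omega

theorem exists_ext {N n : ℕ} {h : ℕ → ℕ} (hw : IsWalk N h) (hb : ∀ s ≤ N, h s ≤ n) :
    ∃ H : ℝ → ℝ, LipschitzWith 1 H ∧ (∀ j ≤ N, H j = h j) ∧ ∀ s, H s ∈ Icc (0 : ℝ) n := by
  have hl : LipschitzOnWith 1 (fun s : ℝ => (h ⌊s⌋₊ : ℝ)) ((fun j : ℕ => (j : ℝ)) '' Iic N) := by
    apply LipschitzOnWith.of_dist_le_mul
    rintro _ ⟨i, hi, rfl⟩ _ ⟨j, hj, rfl⟩
    simp only [Nat.floor_natCast, NNReal.coe_one, one_mul, Real.dist_eq]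
    have hi' : i ≤ N := hi
    have hj' : j ≤ N := hj
    rcases le_total i j with hij | hij
    · obtain ⟨d, rfl⟩ := Nat.exists_eq_add_of_le hij
      obtain ⟨h1, h2⟩ := hw.dist_le d i hj'
      have h1' : (h (i + d) : ℝ) ≤ h i + d := by exact_mod_cast h1
      have h2' : (h i : ℝ) ≤ h (i + d) + d := by exact_mod_cast h2
      have : |(i : ℝ) - ((i + d : ℕ) : ℝ)| = d := by
        push_cast; rw [abs_sub_comm]; simp
      rw [this, abs_le]; constructor <;> linarith
    · obtain ⟨d, rfl⟩ := Nat.exists_eq_add_of_le hij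
      obtain ⟨h1, h2⟩ := hw.dist_le d j hi'
      have h1' : (h (j + d) : ℝ) ≤ h j + d := by exact_mod_cast h1
      have h2' : (h j : ℝ) ≤ h (j + d) + d := by exact_mod_cast h2
      have : |((j + d : ℕ) : ℝ) - (j : ℝ)| = d := by
        push_cast; simp
      rw [this, abs_le]; constructor <;> linarith
  obtain ⟨g, hg, he⟩ := hl.extend_real
  refine ⟨fun s => max (min (g s) n) 0, (hg.min_const _).max_const _, fun j hj => ?_,
    fun s => ⟨le_max_right _ _, max_le (min_le_right _ _) (Nat.cast_nonneg _)⟩⟩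
  have e : g j = h j := by
    have := he (mem_image_of_mem (fun j : ℕ => (j : ℝ)) (show j ∈ Iic N from hj))
    simpa using this.symm
  have : (h j : ℝ) ≤ n := by exact_mod_cast hb j hj
  simp only [e, min_eq_left this]
  exact max_eq_left (Nat.cast_nonneg _)

theorem FS.Ch.adj {W : Type} {R : W → W → Prop} (h1 : ∀ x, R x x) (h2 : ∀ x y, R x y → R y x)
    {a : FS W} (ha : FS.Ch R a) {i j : ℕ} (hi : i ≤ a.n) (hj : j ≤ a.n) (hij : Adj i j) :
    R (a.u i) (a.u j) := by
  unfold Adj at hij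
  rcases Nat.lt_trichotomy i j with h | h | h
  · have : j = i + 1 := by omega
    subst this
    exact ha i (by omega)
  · subst h; exact h1 _
  · have : i = j + 1 := by omega
    subst this
    exact h2 _ _ (ha j (by omega))

theorem adj_floor {s t : ℝ} (hs : 0 ≤ s) (ht : 0 ≤ t) (h : |s - t| < 1) : Adj ⌊s⌋₊ ⌊t⌋₊ := by
  rw [abs_lt] at h
  have a1 := Nat.floor_le hs
  have a2 := Nat.floor_le ht
  have a3 := Nat.lt_floor_add_one s
  have a4 := Nat.lt_floor_add_one t
  constructor
  · have : (⌊s⌋₊ : ℝ) < ⌊t⌋₊ + 1 + 1 := by linarith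
    have : ⌊s⌋₊ < ⌊t⌋₊ + 1 + 1 := by exact_mod_cast this
    omega
  · have : (⌊t⌋₊ : ℝ) < ⌊s⌋₊ + 1 + 1 := by linarith
    have : ⌊t⌋₊ < ⌊s⌋₊ + 1 + 1 := by exact_mod_cast this
    omega

/-- Composite of `d` bonding maps ending at level `n`. -/
def down {α : Type} (H : ℕ → α → α) : ℕ → ℕ → α → α
  | _, 0, s => s
  | n, d + 1, s => H n (down H (n + 1) d s)

theorem continuous_down (H : ℕ → ℝ → ℝ) (hH : ∀ n, Continuous (H n)) :
    ∀ d n, Continuous (down H n d) := by
  intro d
  induction d with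
  | zero => intro n; exact continuous_id
  | succ d ih => intro n; exact (hH n).comp (ih (n + 1))

section Lim

variable (k : ℕ → ℕ) (H : ℕ → ℝ → ℝ)

/-- Points of the box satisfying the first `N` bonding equations. -/
def TN (N : ℕ) : Set (ℕ → ℝ) :=
  {x | (∀ n, x n ∈ Icc (0 : ℝ) (k n)) ∧ ∀ n < N, x n = H n (x (n + 1))}

theorem TN_anti : Antitone (TN k H) := fun _ _ h _ hx => ⟨hx.1, fun n hn => hx.2 n (by omega)⟩

theorem TN_compact (hH : ∀ n, Continuous (H n)) (N : ℕ) : IsCompact (TN k H N) := by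
  have hb : IsCompact (Set.pi univ fun n => Icc (0 : ℝ) (k n)) :=
    isCompact_univ_pi fun _ => isCompact_Icc
  refine hb.of_isClosed_subset ?_ fun x hx n _ => hx.1 n
  have : TN k H N = (⋂ n, {x | x n ∈ Icc (0 : ℝ) (k n)}) ∩
      ⋂ n, ⋂ (_ : n < N), {x | x n = H n (x (n + 1))} := by
    ext x; simp [TN]
  rw [this]
  refine (isClosed_iInter fun n => isClosed_Icc.preimage (continuous_apply n)).inter
    (isClosed_iInter fun n => isClosed_iInter fun _ => isClosed_eq (continuous_apply n) ?_)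
  exact (hH n).comp (continuous_apply _)

theorem phi_mem (hb : ∀ n s, H n s ∈ Icc (0 : ℝ) (k n)) (N : ℕ) (x : ℕ → ℝ)
    (hx : ∀ n, x n ∈ Icc (0 : ℝ) (k n)) :
    (fun n => down H n (N - n) (x (max n N))) ∈ TN k H N := by
  constructor
  · intro n
    by_cases h : n < N
    · obtain ⟨d, hd⟩ : ∃ d, N - n = d + 1 := ⟨N - n - 1, by omega⟩
      simp only [hd, down]
      exact hb _ _
    · simp only [show N - n = 0 by omega, down, show max n N = n by omega]
      exact hx n
  · intro n hn
    simp only [show N - n = (N - (n + 1)) + 1 by omega, down, show max n N = N by omega,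
      show max (n + 1) N = N by omega]

theorem TN_preconnected (hH : ∀ n, Continuous (H n)) (hb : ∀ n s, H n s ∈ Icc (0 : ℝ) (k n))
    (N : ℕ) : IsPreconnected (TN k H N) := by
  have hbox : IsPreconnected (Set.pi univ fun n => Icc (0 : ℝ) (k n)) :=
    isPreconnected_univ_pi fun _ => isPreconnected_Icc
  have hc : Continuous fun (x : ℕ → ℝ) n => down H n (N - n) (x (max n N)) :=
    continuous_pi fun n => (continuous_down H hH _ _).comp (continuous_apply _)
  have := hbox.image _ hc.continuousOn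
  convert this using 1
  apply Subset.antisymm
  · intro x hx
    refine ⟨x, fun n _ => hx.1 n, ?_⟩
    have key : ∀ d n, n + d ≤ N → down H n d (x (n + d)) = x n := by
      intro d
      induction d with
      | zero => intro n _; rfl
      | succ d ih =>
        intro n hn
        simp only [down]
        rw [show n + (d + 1) = n + 1 + d by omega, ih (n + 1) (by omega)]
        exact (hx.2 n (by omega)).symm
    funext n
    by_cases h : n ≤ N
    · have := key (N - n) n (by omega)
      rwa [show n + (N - n) = max n N by omega] at this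
    · simp only [show N - n = 0 by omega, down, show max n N = n by omega]
  · rintro _ ⟨x, hx, rfl⟩
    exact phi_mem k H hb N x fun n => hx n (mem_univ _)

end Lim

theorem wc_of_seq {W : Type} [MetricSpace W] [CompactSpace W] (a : ℕ → FS W) (C : ℝ)
    (hC : 0 ≤ C) (hRef : ∀ n, FS.Ref (C / 2 ^ n) (a n) (a (n + 1)))
    (hFine : ∀ n, FS.Ch (fun x y => dist x y ≤ C / 2 ^ n) (a n))
    (hDense : ∀ n x, ∃ i ≤ (a n).n, dist ((a n).u i) x ≤ C / 2 ^ n) : WC W := by
  choose h hpat hd using hRef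
  choose H hL hHe hHb using fun n => exists_ext (hpat n).2.2.1 (hpat n).2.2.2
  set k : ℕ → ℕ := fun n => (a n).n with hk
  have hHc : ∀ n, Continuous (H n) := fun n => (hL n).continuous
  set T : Set (ℕ → ℝ) := ⋂ N, TN k H N with hT
  have hTc : IsCompact T := (TN_compact k H hHc 0).of_isClosed_subset
    (isClosed_iInter fun N => (TN_compact k H hHc N).isClosed) (iInter_subset _ 0)
  have hTp : IsPreconnected T := isPreconnected_iInter_anti _ (TN_compact k H hHc)
    (TN_preconnected k H hHc hHb) (TN_anti k H)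
  have hT1 : ∀ x ∈ T, ∀ n, x n ∈ Icc (0 : ℝ) (k n) := fun x hx => (mem_iInter.1 hx 0).1
  have hT2 : ∀ x ∈ T, ∀ n, x n = H n (x (n + 1)) := fun x hx n =>
    (mem_iInter.1 hx (n + 1)).2 n (by omega)
  have hthread : ∀ n i, i ≤ k n → ∃ x ∈ T, x n = i := by
    intro n i hi
    have key : ∀ d n i, i ≤ k n → ∃ j ≤ k (n + d), down H n d j = i := by
      intro d
      induction d with
      | zero => intro n i hi; exact ⟨i, hi, rfl⟩
      | succ d ih =>
        intro n i hi
        obtain ⟨s, hs, hs', -⟩ := (hpat n).surj hi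
        obtain ⟨j, hj, hj'⟩ := ih (n + 1) s hs
        refine ⟨j, by rwa [show n + (d + 1) = n + 1 + d by omega], ?_⟩
        simp only [down]
        rw [hj', hHe n s hs, hs']
    have hne := IsCompact.nonempty_iInter_of_sequence_nonempty_isCompact_isClosed
      (fun N => TN k H (n + N) ∩ {x | x n = i})
      (fun N => inter_subset_inter_left _ (TN_anti k H (by omega)))
      (fun N => by
        obtain ⟨j, hj, hj'⟩ := key N n i hi
        refine ⟨_, phi_mem k H hHb (n + N) (Function.update 0 (n + N) j) fun m => ?_, ?_⟩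
        · by_cases hm : m = n + N
          · subst hm
            simp only [Function.update_self]
            exact ⟨Nat.cast_nonneg _, by exact_mod_cast hj⟩
          · rw [Function.update_of_ne hm]
            exact ⟨le_rfl, Nat.cast_nonneg _⟩
        · simp only [mem_ofPred_eq, show n + N - n = N by omega, show max n (n + N) = n + N by omega,
            Function.update_self]
          exact hj')
      ((TN_compact k H hHc _).inter_right (isClosed_eq (continuous_apply n) continuous_const))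
      (fun N => (TN_compact k H hHc _).isClosed.inter
        (isClosed_eq (continuous_apply n) continuous_const))
    obtain ⟨x, hx⟩ := hne
    rw [mem_iInter] at hx
    exact ⟨x, mem_iInter.2 fun N => TN_anti k H (by omega) (hx N).1, (hx 0).2⟩
  have hpos : ∀ n : ℕ, 0 ≤ C / 2 ^ n := fun n => by positivity
  have hadj : ∀ n i j, i ≤ k n → j ≤ k n → Adj i j → dist ((a n).u i) ((a n).u j) ≤ C / 2 ^ n :=
    fun n i j hi hj hij => (hFine n).adj (fun x => by simpa using hpos n)
      (fun x y h => by rwa [dist_comm]) hi hj hij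
  have hfl : ∀ x ∈ T, ∀ n, ⌊x n⌋₊ ≤ k n := fun x hx n => Nat.floor_le_of_le (hT1 x hx n).2
  have hstep : ∀ x ∈ T, ∀ n, dist ((a n).u ⌊x n⌋₊) ((a (n + 1)).u ⌊x (n + 1)⌋₊)
      ≤ (4 * C) / 2 / 2 ^ n := by
    intro x hx n
    have h1 := hd n _ (hfl x hx (n + 1))
    have h2 : Adj ⌊x n⌋₊ (h n ⌊x (n + 1)⌋₊) := by
      have e : h n ⌊x (n + 1)⌋₊ = ⌊H n (⌊x (n + 1)⌋₊ : ℕ)⌋₊ := by
        rw [hHe n _ (hfl x hx (n + 1)), Nat.floor_natCast]
      rw [e]
      refine adj_floor (hT1 x hx n).1 (hHb _ _).1 ?_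
      rw [hT2 x hx n]
      have := (hL n).dist_le_mul (x (n + 1)) (⌊x (n + 1)⌋₊ : ℕ)
      rw [Real.dist_eq, Real.dist_eq, NNReal.coe_one, one_mul] at this
      refine this.trans_lt ?_
      have a1 := Nat.floor_le (hT1 x hx (n + 1)).1
      have a3 := Nat.lt_floor_add_one (x (n + 1))
      rw [abs_lt]; constructor <;> linarith
    have h3 := hadj n _ _ (hfl x hx n) ((hpat n).2.2.2 _ (hfl x hx (n + 1))) h2
    have := dist_triangle_right ((a n).u ⌊x n⌋₊) ((a (n + 1)).u ⌊x (n + 1)⌋₊)
      ((a n).u (h n ⌊x (n + 1)⌋₊))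
    have e : (4 * C) / 2 / 2 ^ n = C / 2 ^ n + C / 2 ^ n := by ring
    linarith
  have hlim : ∀ x : T, ∃ w, Tendsto (fun n => (a n).u ⌊x.1 n⌋₊) atTop (𝓝 w) := fun x =>
    cauchySeq_tendsto_of_complete (cauchySeq_of_le_geometric_two (hstep x.1 x.2))
  choose F hF using hlim
  have hFd : ∀ (x : T) n, dist ((a n).u ⌊x.1 n⌋₊) (F x) ≤ (4 * C) / 2 ^ n := fun x n =>
    dist_le_of_le_geometric_two_of_tendsto (hstep x.1 x.2) (hF x) n
  have hsmall : ∀ D ε : ℝ, 0 < ε → ∃ n : ℕ, D / 2 ^ n < ε := by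
    intro D ε hε
    have : Tendsto (fun n : ℕ => D / 2 ^ n) atTop (𝓝 0) :=
      tendsto_const_nhds.div_atTop (tendsto_pow_atTop_atTop_of_one_lt one_lt_two)
    exact (this.eventually (gt_mem_nhds hε)).exists
  have hev : ∀ n, Continuous fun y : T => y.1 n := fun n =>
    (continuous_apply n).comp continuous_subtype_val
  have hFc : Continuous F := by
    rw [continuous_iff_continuousAt]
    intro x
    rw [ContinuousAt, Metric.tendsto_nhds]
    intro ε hε
    obtain ⟨n, hn⟩ := hsmall (9 * C) ε hε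
    have hc : Continuous fun y : T => |y.1 n - x.1 n| := ((hev n).sub continuous_const).abs
    have : ∀ᶠ y : T in 𝓝 x, |y.1 n - x.1 n| < 1 :=
      hc.continuousAt.eventually (gt_mem_nhds (by simp))
    filter_upwards [this] with y hy
    have h1 := hadj n _ _ (hfl y.1 y.2 n) (hfl x.1 x.2 n)
      (adj_floor (hT1 y.1 y.2 n).1 (hT1 x.1 x.2 n).1 hy)
    have h2 := hFd x n
    have h3 := hFd y n
    have h4 := dist_triangle4 (F y) ((a n).u ⌊y.1 n⌋₊) ((a n).u ⌊x.1 n⌋₊) (F x)
    rw [dist_comm (F y) ((a n).u _)] at h4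
    have e : (9 * C) / 2 ^ n = 4 * C / 2 ^ n + C / 2 ^ n + 4 * C / 2 ^ n := by ring
    linarith
  have : CompactSpace T := isCompact_iff_compactSpace.1 hTc
  have hFs : Function.Surjective F := by
    intro w
    have hcl : IsClosed (range F) := (isCompact_range hFc).isClosed
    apply hcl.closure_subset
    rw [Metric.mem_closure_iff]
    intro ε hε
    obtain ⟨n, hn⟩ := hsmall (5 * C) ε hε
    obtain ⟨i, hi, hi'⟩ := hDense n w
    obtain ⟨x, hx, hxi⟩ := hthread n i hi
    refine ⟨F ⟨x, hx⟩, mem_range_self _, ?_⟩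
    have h1 := hFd ⟨x, hx⟩ n
    simp only [hxi, Nat.floor_natCast] at h1
    have h2 := dist_triangle_left w (F ⟨x, hx⟩) ((a n).u i)
    have e : (5 * C) / 2 ^ n = C / 2 ^ n + 4 * C / 2 ^ n := by ring
    linarith
  have hTne : T.Nonempty := by
    obtain ⟨x, hx, -⟩ := hthread 0 0 (Nat.zero_le _)
    exact ⟨x, hx⟩
  have : ConnectedSpace T := isConnected_iff_connectedSpace.1 ⟨hTne, hTp⟩
  let inst : MetricSpace T := TopologicalSpace.metrizableSpaceMetric T
  refine ⟨T, inst, inferInstance, inferInstance, fun ε hε => ?_, F, hFc, hFs⟩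
  by_contra hcon
  push Not at hcon
  have hbad : ∀ n, ({p : T × T | ε / 2 ≤ dist p.1 p.2 ∧ p.1.1 n = p.2.1 n}).Nonempty := by
    intro n
    obtain ⟨r, hr⟩ := hcon (fun y => y.1 n) (hev n)
    by_contra hne
    have : Metric.diam ((fun y : T => y.1 n) ⁻¹' {r}) ≤ ε / 2 := by
      apply Metric.diam_le_of_forall_dist_le (by linarith)
      intro x hx y hy
      by_contra hlt
      exact hne ⟨(x, y), (not_le.1 hlt).le, (show x.1 n = r from hx).trans (show y.1 n = r from hy).symm⟩
    linarith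
  have hcl : ∀ n, IsClosed {p : T × T | ε / 2 ≤ dist p.1 p.2 ∧ p.1.1 n = p.2.1 n} := fun n =>
    (isClosed_le continuous_const continuous_dist).inter 
      (isClosed_eq ((hev n).comp continuous_fst) ((hev n).comp continuous_snd))
  obtain ⟨p, hp⟩ := IsCompact.nonempty_iInter_of_sequence_nonempty_isCompact_isClosed
    (fun n => {p : T × T | ε / 2 ≤ dist p.1 p.2 ∧ p.1.1 n = p.2.1 n})
    (fun n p hp => ⟨hp.1, by rw [hT2 _ p.1.2 n, hT2 _ p.2.2 n, hp.2]⟩) hbad
    (hcl 0).isCompact hcl
  rw [mem_iInter] at hp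
  have e : p.1 = p.2 := Subtype.ext (funext fun n => (hp n).2)
  have := (hp 0).1
  rw [e, dist_self] at this
  linarith

end Pool.Agent.Lib.MP_4bbdcb_gt
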