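import Mathlib
import Pool.Agent.Lib.MP_4bbdcb_gt.InvLim

/-!
The whisker lemma: a compact metric space that is the union of an equicontinuous family of paths
starting in a weakly chainable part is weakly chainable.
-/

set_option autoImplicit false

namespace Pool.Agent.Lib.MP_4bbdcb_gt

open Set Filter Topology FS

/-- Concatenations of blocks, with the set of block starts. -/
inductive St {Z W : Type} (B : Z → Z → FS W → Prop) : Z → Z → FS W → Set Z → Prop
  | one {z z' : Z} {u : FS W} : B z z' u → St B z z' u {z}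
  | app {z z' z'' : Z} {u u' : FS W} {S S' : Set Z} :
      St B z z' u S → St B z' z'' u' S' → St B z z'' (cat u u') (S ∪ S')

theorem St.start_mem {Z W : Type} {B : Z → Z → FS W → Prop} {z z' : Z} {u : FS W} {S : Set Z}
    (h : St B z z' u S) : z ∈ S := by
  induction h with
  | one _ => rfl
  | app _ _ ih _ => exact Or.inl ih

theorem St.exists_of_list {Z W : Type} {B : Z → Z → FS W → Prop} (hB : ∀ z z', ∃ u, B z z' u)
    (z0 : Z) (L : List Z) : ∃ u S, St B z0 z0 u S ∧ ∀ x ∈ L, x ∈ S := by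
  induction L with
  | nil =>
    obtain ⟨u, hu⟩ := hB z0 z0
    exact ⟨u, _, St.one hu, by simp⟩
  | cons x L ih =>
    obtain ⟨u, S, h, hS⟩ := ih
    obtain ⟨u1, h1⟩ := hB z0 x
    obtain ⟨u2, h2⟩ := hB x z0
    refine ⟨_, _, ((St.one h1).app (St.one h2)).app h, fun y hy => ?_⟩
    rcases List.mem_cons.1 hy with rfl | hy
    · simp
    · exact Or.inr (hS y hy)

theorem St.props {Z W : Type} {B : Z → Z → FS W → Prop} {R : W → W → Prop} (hR : ∀ x, R x x)
    (top : Z → W) (hB : ∀ z z' u, B z z' u → u.u 0 = top z ∧ u.u u.n = top z' ∧ Ch R u)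
    {z z' : Z} {u : FS W} {S : Set Z} (h : St B z z' u S) :
    u.u 0 = top z ∧ u.u u.n = top z' ∧ Ch R u ∧ ∀ x ∈ S, top x ∈ im u := by
  induction h with
  | one h =>
    obtain ⟨h1, h2, h3⟩ := hB _ _ _ h
    refine ⟨h1, h2, h3, fun x hx => ?_⟩
    rw [mem_singleton_iff.1 hx, ← h1]
    exact first_mem_im _
  | app _ _ ih1 ih2 =>
    obtain ⟨a1, a2, a3, a4⟩ := ih1
    obtain ⟨b1, b2, b3, b4⟩ := ih2
    refine ⟨by rw [cat_first, a1], by rw [cat_last, b2], a3.cat b3 (by rw [a2, b1]; exact hR _),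
      fun x hx => ?_⟩
    rw [im_cat]
    exact hx.elim (fun h => Or.inl (a4 x h)) fun h => Or.inr (b4 x h)

theorem St.refine {Z W : Type} [PseudoMetricSpace W] {B B' : Z → Z → FS W → Prop}
    {sim : Z → Z → Prop} {ε : ℝ} (hrefl : ∀ z, sim z z)
    (h11 : ∀ z z' u y y', B z z' u → sim z y → sim z' y' → ∃ u', B' y y' u' ∧ Ref ε u u')
    (hpump : ∀ z z' u, B z z' u → ∃ v, B z z v ∧ Ref 0 u (cat v u))
    (c : Z → List Z) (hc : ∀ z, ∀ y ∈ c z, sim z y)
    {z z' : Z} {u : FS W} {S : Set Z} (h : St B z z' u S) :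
    ∃ u' S', St B' z z' u' S' ∧ Ref ε u u' ∧ ∀ x ∈ S, ∀ y ∈ c x, y ∈ S' := by
  induction h with
  | @one z z' u h =>
    have key : ∀ (L : List Z), (∀ y ∈ L, sim z y) → ∀ y0, sim z y0 →
        ∃ u' S', St B' y0 z' u' S' ∧ Ref ε u u' ∧ ∀ y ∈ L, y ∈ S' := by
      intro L
      induction L with
      | nil =>
        intro _ y0 hy0
        obtain ⟨u', h1, h2⟩ := h11 z z' u y0 z' h hy0 (hrefl _)
        exact ⟨u', _, St.one h1, h2, by simp⟩
      | cons x L ih =>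
        intro hL y0 hy0
        obtain ⟨u2, S2, a1, a2, a3⟩ := ih (fun y hy => hL y (List.mem_cons_of_mem _ hy)) x
          (hL x List.mem_cons_self)
        obtain ⟨v, hv, hv'⟩ := hpump z z' u h
        obtain ⟨u1, b1, b2⟩ := h11 z z v y0 x hv hy0 (hL x List.mem_cons_self)
        refine ⟨_, _, (St.one b1).app a1, ?_, fun y hy => ?_⟩
        · simpa using hv'.trans (b2.cat a2)
        · rcases List.mem_cons.1 hy with rfl | hy
          · exact Or.inr a1.start_mem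
          · exact Or.inr (a3 y hy)
    obtain ⟨u', S', h1, h2, h3⟩ := key (c z) (hc z) z (hrefl z)
    exact ⟨u', S', h1, h2, fun x hx y hy => h3 y (by rwa [mem_singleton_iff.1 hx] at hy)⟩
  | app _ _ ih1 ih2 =>
    obtain ⟨u1, S1, a1, a2, a3⟩ := ih1
    obtain ⟨u2, S2, b1, b2, b3⟩ := ih2
    exact ⟨_, _, a1.app b1, a2.cat b2, fun x hx y hy =>
      hx.elim (fun h => Or.inl (a3 x h y hy)) fun h => Or.inr (b3 x h y hy)⟩

/-- A weak chain system with mesh `c / 2 ^ n`. -/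
structure Sys {W : Type} [PseudoMetricSpace W] (c : ℝ) (b : ℕ → FS W) (h : ℕ → ℕ → ℕ) :
    Prop where
  walk : ∀ n, IsWalk (b (n + 1)).n (h n)
  bd : ∀ n i, i ≤ (b (n + 1)).n → h n i ≤ (b n).n
  near : ∀ n i, i ≤ (b (n + 1)).n → dist ((b (n + 1)).u i) ((b n).u (h n i)) ≤ c / 2 ^ n
  fine : ∀ n, Ch (fun x y => dist x y ≤ c / 2 ^ n) (b n)

theorem Sys.down_props {W : Type} [PseudoMetricSpace W] {c : ℝ} {b : ℕ → FS W} {h : ℕ → ℕ → ℕ}
    (hs : Sys c b h) : ∀ d n m, m = n + d → IsWalk (b m).n (down h n d) ∧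
      (∀ i ≤ (b m).n, down h n d i ≤ (b n).n) ∧
      ∀ i ≤ (b m).n, dist ((b m).u i) ((b n).u (down h n d i)) ≤ 2 * c / 2 ^ n - 2 * c / 2 ^ m := by
  intro d
  induction d with
  | zero =>
    rintro n m rfl
    refine ⟨fun i _ => ?_, fun i hi => hi, fun i _ => by simp [down]⟩
    simp only [down]; unfold Adj; omega
  | succ d ih =>
    intro n m hm
    obtain ⟨h1, h2, h3⟩ := ih (n + 1) m (by omega)
    refine ⟨fun i hi => ?_, fun i hi => hs.bd n _ (h2 i hi), fun i hi => ?_⟩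
    · exact (hs.walk n).adj (h2 i hi.le) (h2 _ hi) (h1 i hi)
    · have a1 := h3 i hi
      have a2 := hs.near n _ (h2 i hi)
      have a3 := dist_triangle ((b m).u i) ((b (n + 1)).u (down h (n + 1) d i))
        ((b n).u (h n (down h (n + 1) d i)))
      have e : 2 * c / 2 ^ n = 2 * c / 2 ^ (n + 1) + c / 2 ^ n := by ring
      simp only [down]
      linarith

theorem Sys.exists_lam {W Z : Type} [PseudoMetricSpace W] {c : ℝ} (hc : 0 ≤ c) {b : ℕ → FS W}
    {h : ℕ → ℕ → ℕ} (hs : Sys c b h) (p : Z → W)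
    (hp : ∀ n z, ∃ i ≤ (b n).n, dist ((b n).u i) (p z) ≤ c / 2 ^ n) :
    ∃ lam : ℕ → Z → Set (Set ℕ),
      (∀ n z, lam n z = (fun S => h n '' S) '' lam (n + 1) z) ∧
      (∀ n z z', ∃ a : FS ℕ, Ch Adj a ∧ im a ⊆ Iic (b n).n ∧ FR a = lam n z ∧
        FR (rev a) = lam n z') ∧
      (∀ n z (a : FS ℕ), FR a = lam n z → dist ((b n).u (a.u 0)) (p z) ≤ 2 * c / 2 ^ n) ∧
      ∀ n, (range (lam n)).Finite := by
  choose i hi hid using hp
  set F : ℕ → Z → ℕ → Set (Set ℕ) :=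
    fun n z m => FR (map (down h n (m - n)) (sweep (b m).n (i m z))) with hF
  have hge : ∀ n, ∀ᶠ m in (hyperfilter ℕ : Filter ℕ), n ≤ m := fun n =>
    Nat.hyperfilter_le_atTop (eventually_ge_atTop n)
  have hfin : ∀ n, {A : Set (Set ℕ) | A ⊆ {S | S ⊆ Iic (b n).n}}.Finite := fun n =>
    (finite_Iic _).finite_subsets.finite_subsets
  have hex : ∀ n z, ∃ A, A ⊆ {S | S ⊆ Iic (b n).n} ∧
      ∀ᶠ m in (hyperfilter ℕ : Filter ℕ), F n z m = A := by
    intro n z
    obtain ⟨A, hA, hA'⟩ := Ultrafilter.eq_pure_of_finite_mem (f := (hyperfilter ℕ).map (F n z))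
      (hfin n) (by
        rw [Ultrafilter.mem_map]
        filter_upwards [hge n] with m hm
        rintro _ ⟨j, hj, rfl⟩ _ ⟨s, hs', rfl⟩
        refine (hs.down_props (m - n) n m (by omega)).2.1 _ ?_
        have : (sweep (b m).n (i m z)).u s ∈ im (sweep (b m).n (i m z)) :=
          ⟨s, le_trans hs' hj, rfl⟩
        rwa [sweep_im (hi m z)] at this)
    refine ⟨A, hA, ?_⟩
    have : {A} ∈ (hyperfilter ℕ).map (F n z) := by rw [hA']; simp
    exact this
  choose lam hlam1 hlam2 using hex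
  refine ⟨lam, fun n z => ?_, fun n z z' => ?_, fun n z a ha => ?_,
    fun n => (hfin n).subset ?_⟩
  · obtain ⟨m, h1, h2, h3⟩ := ((hlam2 n z).and ((hlam2 (n + 1) z).and (hge (n + 1)))).exists
    rw [← h1, ← h2]
    simp only [hF]
    rw [← FR_map, show m - n = (m - (n + 1)) + 1 by omega]
    rfl
  · obtain ⟨m, h1, h2, h3⟩ := ((hlam2 n z).and ((hlam2 n z').and (hge n))).exists
    obtain ⟨a, a1, a2, a3, a4⟩ := exists_link (hi m z) (hi m z')
    obtain ⟨d1, d2, -⟩ := hs.down_props (m - n) n m (by omega)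
    refine ⟨map (down h n (m - n)) a, a1.map_walk a2.le d1, ?_, ?_, ?_⟩
    · rintro _ ⟨s, hs', rfl⟩
      refine d2 _ ?_
      have : a.u s ∈ im a := ⟨s, hs', rfl⟩
      rwa [a2] at this
    · rw [← h1, FR_map, a3, ← FR_map]
    · rw [← h2, ← map_rev, FR_map, a4, ← FR_map]
  · obtain ⟨m, h1, h3⟩ := ((hlam2 n z).and (hge (n + 1))).exists
    have e : a.u 0 = down h n (m - n) (i m z) := by
      have := FRec.start (ha.trans h1.symm)
      rw [this, map_first, sweep_first]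
    obtain ⟨-, -, d3⟩ := hs.down_props (m - n) n m (by omega)
    have a1 := d3 _ (hi m z)
    have a2 := hid m z
    have a3 := dist_triangle_left ((b n).u (down h n (m - n) (i m z))) (p z) ((b m).u (i m z))
    have a4 : 0 ≤ c / 2 ^ m := by positivity
    have a5 : 2 * c / 2 ^ m = 2 * (c / 2 ^ m) := by ring
    rw [e]
    linarith
  · rintro _ ⟨z, rfl⟩
    exact hlam1 n z

theorem div_pat {M M' : ℕ} (hM : 0 < M) (hMM : M ≤ M') : Pat M' M (fun j => j * M / M') := by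
  have hM' : 0 < M' := by omega
  refine ⟨by simp, by simp only; rw [mul_comm]; exact Nat.mul_div_cancel _ hM', fun j _ => ?_,
    fun j hj => ?_⟩
  · constructor
    · have : j * M / M' ≤ (j + 1) * M / M' :=
        Nat.div_le_div_right (Nat.mul_le_mul_right _ (by omega))
      exact this.trans (Nat.le_succ _)
    · have : (j + 1) * M / M' ≤ (j * M + M') / M' :=
        Nat.div_le_div_right (by rw [add_mul, one_mul]; omega)
      rw [Nat.add_div_right _ hM'] at this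
      exact this
  · simp only
    apply Nat.div_le_of_le_mul
    exact Nat.mul_le_mul_right _ hj

theorem div_near {M M' j : ℕ} (hM : 0 < M) (hM' : 0 < M') :
    |(j : ℝ) / M' - ((j * M / M' : ℕ) : ℝ) / M| ≤ 1 / M := by
  have h1 : (j * M / M') * M' ≤ j * M := Nat.div_mul_le_self _ _
  have h2 : j * M < (j * M / M' + 1) * M' := by
    rw [mul_comm _ M']; exact Nat.lt_mul_div_succ _ hM'
  set q := j * M / M'
  have h1' : (q : ℝ) * M' ≤ j * M := by exact_mod_cast h1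
  have h2' : (j : ℝ) * M < (q + 1) * M' := by exact_mod_cast h2
  have hMr : (0 : ℝ) < M := by exact_mod_cast hM
  have hMr' : (0 : ℝ) < M' := by exact_mod_cast hM'
  have a1 : (q : ℝ) / M ≤ j / M' := by rw [div_le_div_iff₀ hMr hMr']; linarith
  have a2 : (j : ℝ) / M' ≤ (q + 1) / M := by rw [div_le_div_iff₀ hMr' hMr]; linarith
  rw [add_div] at a2
  have a3 : (0 : ℝ) ≤ 1 / M := by positivity
  rw [abs_le]; constructor <;> linarith

theorem wc_of_whiskers {W Z : Type} [MetricSpace W] [CompactSpace W] [Nonempty Z] {c : ℝ}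
    (hc : 0 ≤ c) {b : ℕ → FS W} {h : ℕ → ℕ → ℕ} (hs : Sys c b h) (H : Z → ℝ → W)
    (heq : ∀ η : ℝ, 0 < η → ∃ δ : ℝ, 0 < δ ∧ ∀ z s s', s ∈ Icc (0 : ℝ) 1 → s' ∈ Icc (0 : ℝ) 1 →
      |s - s'| ≤ δ → dist (H z s) (H z s') ≤ η)
    (hbase : ∀ n z, ∃ i ≤ (b n).n, dist ((b n).u i) (H z 0) ≤ c / 2 ^ n)
    (hcov : ∀ x, ∃ z, H z 1 = x) : WC W := by
  classical
  obtain ⟨lam, L1, L2, L3, L4⟩ := hs.exists_lam hc (fun z => H z 0) hbase
  have hM0 : ∀ n : ℕ, ∃ M : ℕ, 0 < M ∧ ∀ M' : ℕ, M ≤ M' → ∀ z s s', s ∈ Icc (0 : ℝ) 1 →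
      s' ∈ Icc (0 : ℝ) 1 → |s - s'| ≤ 1 / M' → dist (H z s) (H z s') ≤ 1 / 2 ^ n := by
    intro n
    obtain ⟨δ, hδ, hδ'⟩ := heq (1 / 2 ^ n) (by positivity)
    obtain ⟨M, hM⟩ := exists_nat_one_div_lt hδ
    refine ⟨M + 1, by omega, fun M' hM' z s s' h1 h2 h3 => hδ' z s s' h1 h2 (h3.trans ?_)⟩
    refine le_trans ?_ hM.le
    apply one_div_le_one_div_of_le (by positivity)
    exact_mod_cast hM'
  choose M0 hM0pos hM0 using hM0
  set M : ℕ → ℕ := fun n => ∑ i ∈ Finset.range (n + 1), M0 i with hMdef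
  have hMge : ∀ n, M0 n ≤ M n := fun n => by
    simp only [hMdef, Finset.sum_range_succ]; omega
  have hMpos : ∀ n, 0 < M n := fun n => lt_of_lt_of_le (hM0pos n) (hMge n)
  have hMmono : ∀ n, M n ≤ M (n + 1) := fun n => by
    simp only [hMdef]; rw [Finset.sum_range_succ _ (n + 1)]; omega
  have hM : ∀ n z s s', s ∈ Icc (0 : ℝ) 1 → s' ∈ Icc (0 : ℝ) 1 → |s - s'| ≤ 1 / M n →
      dist (H z s) (H z s') ≤ 1 / 2 ^ n := fun n => hM0 n _ (hMge n)
  have hmem : ∀ n j, j ≤ M n → (j : ℝ) / M n ∈ Icc (0 : ℝ) 1 := fun n j hj =>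
    ⟨by positivity, div_le_one_of_le₀ (by exact_mod_cast hj) (by positivity)⟩
  set U : ℕ → Z → FS W := fun n z => ⟨M n, fun j => H z (j / M n)⟩ with hU
  set B : ℕ → Z → Z → FS W → Prop := fun n z z' u => ∃ a : FS ℕ, Ch Adj a ∧ im a ⊆ Iic (b n).n ∧
    FR a = lam n z ∧ FR (rev a) = lam n z' ∧
    u = cat (cat (rev (U n z)) (map (b n).u a)) (U n z') with hB
  set sim : ℕ → Z → Z → Prop := fun n z y => lam n z = lam n y ∧
    ∀ j ≤ M n, dist (H y (j / M n)) (H z (j / M n)) ≤ 2 / 2 ^ n with hsim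
  set C : ℝ := 3 + 2 * c with hC
  have hp2 : ∀ n : ℕ, (0 : ℝ) < 2 ^ n := fun n => by positivity
  have le1 : ∀ n : ℕ, (1 : ℝ) / 2 ^ n ≤ C / 2 ^ n := fun n =>
    div_le_div_of_nonneg_right (by linarith) (hp2 n).le
  have le2 : ∀ n : ℕ, (2 : ℝ) / 2 ^ n ≤ C / 2 ^ n := fun n =>
    div_le_div_of_nonneg_right (by linarith) (hp2 n).le
  have le3 : ∀ n : ℕ, (3 : ℝ) / 2 ^ n ≤ C / 2 ^ n := fun n =>
    div_le_div_of_nonneg_right (by linarith) (hp2 n).le
  have le4 : ∀ n : ℕ, c / 2 ^ n ≤ C / 2 ^ n := fun n =>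
    div_le_div_of_nonneg_right (by linarith) (hp2 n).le
  have le5 : ∀ n : ℕ, 2 * c / 2 ^ n ≤ C / 2 ^ n := fun n =>
    div_le_div_of_nonneg_right (by linarith) (hp2 n).le
  have hU0 : ∀ n z, (U n z).u 0 = H z 0 := fun n z => by simp [hU]
  have hU1 : ∀ n z, (U n z).u (U n z).n = H z 1 := fun n z => by
    simp only [hU]; rw [div_self]; exact_mod_cast (hMpos n).ne'
  have hUch : ∀ n z, Ch (fun x y => dist x y ≤ C / 2 ^ n) (U n z) := by
    intro n z j hj
    refine (hM n z _ _ (hmem n j (le_of_lt hj)) (hmem n (j + 1) hj) ?_).trans (le1 n)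
    rw [← sub_div, abs_div]
    push_cast
    simp
  have hsymm : ∀ n : ℕ, ∀ x y : W, dist x y ≤ C / 2 ^ n → dist y x ≤ C / 2 ^ n :=
    fun n x y h => by rwa [dist_comm]
  have hrefl : ∀ n : ℕ, ∀ x : W, dist x x ≤ C / 2 ^ n := fun n x => by
    rw [dist_self]; positivity
  have hBprops : ∀ n z z' u, B n z z' u → u.u 0 = H z 1 ∧ u.u u.n = H z' 1 ∧
      Ch (fun x y => dist x y ≤ C / 2 ^ n) u := by
    rintro n z z' u ⟨a, a1, a2, a3, a4, rfl⟩
    refine ⟨by rw [cat_first, cat_first, rev_first, hU1], by rw [cat_last, hU1], ?_⟩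
    refine Ch.cat (Ch.cat ((hUch n z).rev (hsymm n)) ?_ ?_) (hUch n z') ?_
    · intro s hs'
      refine le_trans ?_ (le4 n)
      exact (hs.fine n).adj (fun x => by rw [dist_self]; positivity)
        (fun x y h => by rwa [dist_comm]) (a2 ⟨s, le_of_lt hs', rfl⟩) (a2 ⟨s + 1, hs', rfl⟩)
        (a1 s hs')
    · rw [rev_last, map_first, hU0, dist_comm]
      exact (L3 n z a a3).trans (le5 n)
    · rw [cat_last, map_last, hU0]
      have := L3 n z' (rev a) a4
      rw [rev_first] at this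
      exact this.trans (le5 n)
  have hUref : ∀ n z y, sim n z y → Ref (C / 2 ^ n) (U n z) (U (n + 1) y) := by
    intro n z y hzy
    have hp := div_pat (hMpos n) (hMmono n)
    refine ⟨_, hp, fun j hj => le_trans ?_ (le3 n)⟩
    have a1 := hM n y _ _ (hmem (n + 1) j hj) (hmem n _ (hp.2.2.2 j hj))
      (div_near (hMpos n) (hMpos (n + 1)))
    have a2 := hzy.2 _ (hp.2.2.2 j hj)
    have e : (3 : ℝ) / 2 ^ n = 1 / 2 ^ n + 2 / 2 ^ n := by ring
    rw [e]
    exact (dist_triangle _ _ _).trans (add_le_add a1 a2)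
  have h11 : ∀ n z z' u y y', B n z z' u → sim n z y → sim n z' y' →
      ∃ u', B (n + 1) y y' u' ∧ Ref (C / 2 ^ n) u u' := by
    rintro n z z' u y y' ⟨a, a1, a2, a3, a4, rfl⟩ hy hy'
    obtain ⟨a', b1, b2, b3, b4⟩ := L2 (n + 1) y y'
    obtain ⟨d, p, d1, d2, d3, d4, d5, d6⟩ := lift_walk a1 b1 b2 (hs.walk n)
      (by rw [FR_map, b3, ← L1, a3, hy.1]) (by rw [← map_rev, FR_map, b4, ← L1, a4, hy'.1])
    refine ⟨_, ⟨d, d1, d2, d3.trans b3, d4.trans b4, rfl⟩,
      Ref.cat (Ref.cat (hUref n z y hy).rev ⟨p, d5, fun s hs' => ?_⟩) (hUref n z' y' hy')⟩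
    rw [map_u, map_u, d6 s hs']
    exact (hs.near n _ (d2 ⟨s, hs', rfl⟩)).trans (le4 n)
  have hpump : ∀ n z z' u, B n z z' u → ∃ v, B n z z v ∧ Ref 0 u (cat v u) := by
    rintro n z z' u ⟨a, a1, a2, a3, a4, rfl⟩
    refine ⟨_, ⟨cat a (rev a), a1.cat (a1.rev adj_symm) (by rw [rev_first]; exact adj_refl _),
      by rw [im_cat, im_rev, union_self]; exact a2, by rw [FR_cat (by rw [im_rev]), a3],
      by rw [FR_rev_cat (by rw [im_rev]), FR_rev_rev, a3], rfl⟩, ?_⟩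
    have e1 := (Ref.pump (cat (rev (U n z)) (map (b n).u a))).cat (Ref.refl (U n z'))
    have e2 : Ref 0 (cat (cat (rev (U n z)) (map (b n).u a))
        (rev (cat (rev (U n z)) (map (b n).u a))))
        (cat (cat (rev (U n z)) (map (b n).u (cat a (rev a)))) (U n z)) := by
      rw [rev_cat, map_cat, map_rev, ← cat_assoc, ← cat_assoc]
      exact (Ref.refl _).cat (Ref.rev_rev _)
    have e3 := (e2.cat (Ref.refl (cat (rev (U n z)) (map (b n).u a)))).cat (Ref.refl (U n z'))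
    have e4 := e1.trans e3
    rw [add_zero, cat_assoc _ (cat (rev (U n z)) (map (b n).u a)) (U n z')] at e4
    exact e4
  have hsimrefl : ∀ n z, sim n z z := fun n z => ⟨rfl, fun j _ => by rw [dist_self]; positivity⟩
  have hnet : ∀ n, ∃ L : List Z, ∀ z, ∃ x ∈ L, sim n x z := by
    intro n
    obtain ⟨t, -, ht, htc⟩ := finite_cover_balls_of_compact (isCompact_univ (X := W))
      (e := 1 / 2 ^ n) (by positivity)
    have hcell : ∀ x : W, ∃ y ∈ t, dist x y < 1 / 2 ^ n := fun x => by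
      simpa using htc (mem_univ x)
    choose cell hcell1 hcell2 using hcell
    set τ : Z → Set (Set ℕ) × (Fin (M n + 1) → W) :=
      fun z => (lam n z, fun j => cell (H z ((j : ℕ) / M n))) with hτ
    have hfin : (τ '' univ).Finite := by
      refine ((L4 n).prod (Finite.pi' fun _ : Fin (M n + 1) => ht)).subset ?_
      rintro _ ⟨z, -, rfl⟩
      exact ⟨⟨z, rfl⟩, fun j => hcell1 _⟩
    obtain ⟨T, -, hT, hT'⟩ := hfin.exists_subset_finite_image_eq le_rfl
    refine ⟨hT.toFinset.toList, fun z => ?_⟩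
    have : τ z ∈ τ '' T := by rw [hT']; exact mem_image_of_mem _ (mem_univ z)
    obtain ⟨x, hx, hxz⟩ := this
    refine ⟨x, by simpa using hx, congrArg Prod.fst hxz, fun j hj => ?_⟩
    have e := congrFun (congrArg Prod.snd hxz) ⟨j, by omega⟩
    simp only [hτ] at e
    have a1 := hcell2 (H x (j / M n))
    have a2 := hcell2 (H z (j / M n))
    rw [e] at a1
    have a3 := dist_triangle_right (H z (j / M n)) (H x (j / M n)) (cell (H z (j / M n)))
    have e2 : (2 : ℝ) / 2 ^ n = 1 / 2 ^ n + 1 / 2 ^ n := by ring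
    linarith
  choose L hL using hnet
  obtain ⟨z0⟩ := ‹Nonempty Z›
  set P : ℕ → FS W → Prop := fun n u => ∃ S, St (B n) z0 z0 u S ∧ ∀ z, ∃ x ∈ S, sim n x z with hP
  have hP0 : ∃ u, P 0 u := by
    obtain ⟨u, S, h1, h2⟩ := St.exists_of_list (B := B 0) (fun z z' => by
      obtain ⟨a, a1, a2, a3, a4⟩ := L2 0 z z'
      exact ⟨_, a, a1, a2, a3, a4, rfl⟩) z0 (L 0)
    refine ⟨u, S, h1, fun z => ?_⟩
    obtain ⟨x, hx, hx'⟩ := hL 0 z
    exact ⟨x, h2 x hx, hx'⟩
  have hstep : ∀ n (u : {u // P n u}), ∃ v : {u // P (n + 1) u}, Ref (C / 2 ^ n) u.1 v.1 := by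
    rintro n ⟨u, S, h1, h2⟩
    obtain ⟨u', S', a1, a2, a3⟩ := St.refine (hsimrefl n) (h11 n) (hpump n)
      (fun x => (L (n + 1)).filter fun y => sim n x y) (fun z y hy => by simpa using
        (List.mem_filter.1 hy).2) h1
    refine ⟨⟨u', S', a1, fun z => ?_⟩, a2⟩
    obtain ⟨y, hy, hy'⟩ := hL (n + 1) z
    obtain ⟨x, hx, hx'⟩ := h2 y
    exact ⟨y, a3 x hx y (List.mem_filter.2 ⟨hy, by simpa using hx'⟩), hy'⟩
  choose f hf using hstep
  obtain ⟨u0, hu0⟩ := hP0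
  let sq : ∀ n, {u // P n u} := fun n => Nat.rec ⟨u0, hu0⟩ (fun n u => f n u) n
  refine wc_of_seq (fun n => (sq n).1) C (by linarith) (fun n => hf n (sq n)) (fun n => ?_)
    fun n x => ?_
  · obtain ⟨S, h1, -⟩ := (sq n).2
    exact (St.props (hrefl n) (fun z => H z 1) (hBprops n) h1).2.2.1
  · obtain ⟨S, h1, h2⟩ := (sq n).2
    obtain ⟨z, rfl⟩ := hcov x
    obtain ⟨y, hy, hy'⟩ := h2 z
    obtain ⟨i, hi, hi'⟩ := (St.props (hrefl n) (fun z => H z 1) (hBprops n) h1).2.2.2 y hy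
    refine ⟨i, hi, ?_⟩
    have := hy'.2 (M n) le_rfl
    rw [div_self (by exact_mod_cast (hMpos n).ne')] at this
    rw [hi', dist_comm]
    exact this.trans (le2 n)

end Pool.Agent.Lib.MP_4bbdcb_gt
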