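import Mathlib
import Pool.Agent.Lib.MP_4bbdcb_gt.Whisker

/-!
A weak chain system from families of nearly nested intervals.
-/

set_option autoImplicit false

namespace Pool.Agent.Lib.MP_4bbdcb_gt

open Set Filter Topology FS

/-- The interval of `K` lies in the `r`-neighbourhood of the interval of `K'`. -/
def Nest {A : Type} (lo hi : A → ℝ) (r : ℝ) (K K' : A) : Prop :=
  lo K' - r ≤ lo K ∧ hi K ≤ hi K' + r

theorem Nest.mono {A : Type} {lo hi : A → ℝ} {r r' : ℝ} {K K' : A} (h : Nest lo hi r K K')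
    (hr : r ≤ r') : Nest lo hi r' K K' :=
  ⟨by linarith [h.1], by linarith [h.2]⟩

theorem nest_or {A : Type} {lo hi : A → ℝ} {r : ℝ} {K K' : A}
    (h : |(lo K + hi K) - (lo K' + hi K')| ≤ r) : Nest lo hi r K K' ∨ Nest lo hi r K' K := by
  rw [abs_le] at h
  obtain ⟨h1, h2⟩ := h
  unfold Nest
  by_contra hc
  rw [not_or, not_and_or, not_and_or] at hc
  obtain ⟨a | a, b | b⟩ := hc <;> push Not at a b <;> linarith

theorem nest_between {A : Type} {lo hi : A → ℝ} {r : ℝ} {K K' K'' : A} (hr : 0 ≤ r)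
    (h : Nest lo hi r K K')
    (h1 : lo K + hi K - r ≤ lo K'' + hi K'' ∨ lo K' + hi K' - r ≤ lo K'' + hi K'')
    (h2 : lo K'' + hi K'' ≤ lo K + hi K + r ∨ lo K'' + hi K'' ≤ lo K' + hi K' + r) :
    Nest lo hi (3 * r) K'' K' ∨ Nest lo hi (3 * r) K K'' := by
  obtain ⟨h3, h4⟩ := h
  unfold Nest
  by_contra hc
  rw [not_or, not_and_or, not_and_or] at hc
  obtain ⟨a | a, b | b⟩ := hc <;> push Not at a b <;> rcases h1 with h1 | h1 <;>
    rcases h2 with h2 | h2 <;> linarith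

/-- `a` runs monotonically, with steps at most `δ`, from a minimum to a maximum of `G`. -/
def Grid {A : Type} (G : A → ℝ) (δ : ℝ) (a : FS A) : Prop :=
  (∀ i < a.n, G (a.u i) ≤ G (a.u (i + 1)) ∧ G (a.u (i + 1)) ≤ G (a.u i) + δ) ∧
    ∀ K, G (a.u 0) ≤ G K ∧ G K ≤ G (a.u a.n)

theorem exists_grid {A : Type} {G : A → ℝ} {x y : ℝ} (hxy : x ≤ y) (hG : range G = Icc x y)
    {δ : ℝ} (hδ : 0 < δ) : ∃ a, Grid G δ a := by
  have hch : ∀ r : ℝ, ∃ K, G K = min r y ∨ r < x := by
    intro r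
    by_cases hr : r < x
    · obtain ⟨K, -⟩ : x ∈ range G := by rw [hG]; exact left_mem_Icc.2 hxy
      exact ⟨K, Or.inr hr⟩
    · obtain ⟨K, hK⟩ : min r y ∈ range G := by
        rw [hG]; exact ⟨le_min (not_lt.1 hr) hxy, min_le_right _ _⟩
      exact ⟨K, Or.inl hK⟩
  choose K hK using hch
  have hK' : ∀ i : ℕ, G (K (x + i * δ)) = min (x + i * δ) y := fun i =>
    (hK _).resolve_right (not_lt.2 (le_add_of_nonneg_right (by positivity)))
  obtain ⟨m, hm⟩ := exists_nat_ge ((y - x) / δ)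
  rw [div_le_iff₀ hδ] at hm
  refine ⟨⟨m, fun i => K (x + i * δ)⟩, fun i _ => ?_, fun L => ?_⟩
  · simp only [hK']
    push_cast
    constructor
    · exact min_le_min (by linarith) le_rfl
    · rw [← min_add_add_right]
      exact min_le_min (by linarith) (by linarith)
  · have hL : G L ∈ Icc x y := by rw [← hG]; exact mem_range_self _
    simp only [hK']
    constructor
    · simp only [Nat.cast_zero, zero_mul, add_zero]
      exact (min_le_left _ _).trans hL.1
    · exact le_min (by linarith [hL.2]) hL.2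

theorem Grid.mono {A : Type} {G : A → ℝ} {δ : ℝ} {a : FS A} (h : Grid G δ a) {i j : ℕ}
    (hij : i ≤ j) (hj : j ≤ a.n) : G (a.u i) ≤ G (a.u j) := by
  induction j, hij using Nat.le_induction with
  | base => exact le_rfl
  | succ j _ ih => exact (ih (by omega)).trans (h.1 j (by omega)).1

theorem Grid.near {A : Type} {G : A → ℝ} {δ : ℝ} (hδ : 0 ≤ δ) {a : FS A} (h : Grid G δ a)
    (K : A) : ∃ i ≤ a.n, |G K - G (a.u i)| ≤ δ := by
  have key : ∀ j ≤ a.n, G K ≤ G (a.u j) → ∃ i ≤ a.n, |G K - G (a.u i)| ≤ δ := by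
    intro j
    induction j with
    | zero =>
      intro _ h0
      refine ⟨0, Nat.zero_le _, ?_⟩
      rw [le_antisymm h0 (h.2 K).1]; simpa using hδ
    | succ j ih =>
      intro hj h0
      by_cases h1 : G K ≤ G (a.u j)
      · exact ih (by omega) h1
      · refine ⟨j, by omega, ?_⟩
        have := (h.1 j (by omega)).2
        rw [abs_le]; constructor <;> linarith
  exact key _ le_rfl (h.2 K).2

theorem rtg_straight (Q : ℕ → Prop) : ∀ d i0 i1, max i0 i1 - min i0 i1 = d →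
    (∀ i, Btw i0 i1 i → Q i) → Relation.ReflTransGen (fun i i' => Adj i i' ∧ Q i') i0 i1 := by
  intro d
  induction d with
  | zero =>
    intro i0 i1 hd _
    have : i0 = i1 := by omega
    subst this; exact Relation.ReflTransGen.refl
  | succ d ih =>
    intro i0 i1 hd hQ
    set i' := if i0 < i1 then i0 + 1 else i0 - 1 with hi'
    refine Relation.ReflTransGen.head (b := i') ⟨?_, hQ _ ?_⟩ (ih i' i1 ?_ fun i hi => hQ i ?_)
    · rw [hi']; unfold Adj; split_ifs <;> omega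
    · rw [hi']; unfold Btw; split_ifs <;> omega
    · rw [hi']; split_ifs <;> omega
    · rw [hi'] at hi; unfold Btw at *; split_ifs at hi <;> omega

theorem stutter {m : ℕ} (p : ℕ → ℕ) (Q : ℕ → ℕ → Prop) (h0 : ∀ j ≤ m, Q j (p j))
    (h1 : ∀ j < m, ∀ i, Btw (p j) (p (j + 1)) i → Q j i) :
    ∃ (N : ℕ) (J I : ℕ → ℕ), J 0 = 0 ∧ J N = m ∧ (∀ s < N, J (s + 1) = J s ∨ J (s + 1) = J s + 1) ∧
      IsWalk N I ∧ ∀ s ≤ N, J s ≤ m ∧ Q (J s) (I s) := by
  set R : ℕ × ℕ → ℕ × ℕ → Prop := fun x y =>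
    (y.1 = x.1 ∨ y.1 = x.1 + 1) ∧ Adj x.2 y.2 ∧ y.1 ≤ m ∧ Q y.1 y.2 with hR
  have key : ∀ j ≤ m, Relation.ReflTransGen R (0, p 0) (j, p j) := by
    intro j
    induction j with
    | zero => intro _; exact Relation.ReflTransGen.refl
    | succ j ih =>
      intro hj
      have a1 := rtg_straight (Q j) _ (p j) (p (j + 1)) rfl (h1 j (by omega))
      have a2' : ∀ x y, Relation.ReflTransGen (fun i i' => Adj i i' ∧ Q j i') x y →
          Relation.ReflTransGen R (j, x) (j, y) := by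
        intro x y hxy
        induction hxy with
        | refl => exact Relation.ReflTransGen.refl
        | tail _ hbc ih' => exact ih'.tail ⟨Or.inl rfl, hbc.1, by simp only; omega, hbc.2⟩
      have a2 := a2' _ _ a1
      exact ((ih (by omega)).trans a2).tail ⟨Or.inr rfl, adj_refl _, hj, h0 _ hj⟩
  obtain ⟨N, q, q0, qN, hq⟩ := exists_fun_of_rtg (key m le_rfl)
  refine ⟨N, fun s => (q s).1, fun s => (q s).2, by simp [q0], by simp [qN],
    fun s hs => (hq s hs).1, fun s hs => (hq s hs).2.1, fun s hs => ?_⟩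
  rcases s with _ | s
  · simp only [q0]; exact ⟨Nat.zero_le _, h0 0 (Nat.zero_le _)⟩
  · exact (hq s (by omega)).2.2

theorem exists_sys {A S W : Type} [PseudoMetricSpace W] [Nonempty S] (φ : A → W)
    (lo hi : S → A → ℝ)
    (H1 : ∀ (g : S) (δ η : ℝ), 0 < δ → 0 < η → ∃ (g' : S) (δ' : ℝ), 0 < δ' ∧ ∀ K K',
      Nest (lo g') (hi g') (3 * δ') K K' → Nest (lo g) (hi g) δ K K' ∧ dist (φ K) (φ K') ≤ η)
    (H2 : ∀ g, ∃ x y, x ≤ y ∧ range (fun K => lo g K + hi g K) = Icc x y) :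
    ∃ (b : ℕ → FS W) (h : ℕ → ℕ → ℕ), Sys 2 b h ∧
      ∀ n K, ∃ i ≤ (b n).n, dist ((b n).u i) (φ K) ≤ 2 / 2 ^ n := by
  set Good : ℕ → S × ℝ × FS A → Prop := fun n q => 0 < q.2.1 ∧
    (∀ K K', Nest (lo q.1) (hi q.1) (3 * q.2.1) K K' → dist (φ K) (φ K') ≤ 1 / 2 ^ n) ∧
    Grid (fun K => lo q.1 K + hi q.1 K) q.2.1 q.2.2 with hGood
  have hclose : ∀ n q, Good n q → ∀ K K', |(lo q.1 K + hi q.1 K) - (lo q.1 K' + hi q.1 K')| ≤ q.2.1 →
      dist (φ K) (φ K') ≤ 1 / 2 ^ n := by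
    rintro n q ⟨h1, h2, -⟩ K K' h
    rcases nest_or h with h | h
    · exact h2 _ _ (h.mono (by linarith))
    · rw [dist_comm]; exact h2 _ _ (h.mono (by linarith))
  have h12 : ∀ n : ℕ, (1 : ℝ) / 2 ^ n ≤ 2 / 2 ^ n := fun n =>
    div_le_div_of_nonneg_right (by norm_num) (by positivity)
  have hinit : ∃ q, Good 0 q := by
    obtain ⟨g⟩ := ‹Nonempty S›
    obtain ⟨g', δ', h1, h2⟩ := H1 g 1 (1 / 2 ^ 0) one_pos (by positivity)
    obtain ⟨x, y, hxy, hr⟩ := H2 g'
    obtain ⟨a, ha⟩ := exists_grid hxy hr h1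
    exact ⟨(g', δ', a), h1, fun K K' h => (h2 K K' h).2, ha⟩
  have hstep : ∀ n (q : {q // Good n q}), ∃ (q' : {q // Good (n + 1) q}) (h : ℕ → ℕ),
      IsWalk q'.1.2.2.n h ∧ ∀ i ≤ q'.1.2.2.n, h i ≤ q.1.2.2.n ∧
        dist (φ (q'.1.2.2.u i)) (φ (q.1.2.2.u (h i))) ≤ 2 / 2 ^ n := by
    rintro n ⟨⟨g, δ, a⟩, hq⟩
    have hcl := hclose n _ hq
    obtain ⟨hδ, hη, ha⟩ := hq
    simp only at hδ hη ha hcl
    obtain ⟨g', δ', h1, h2⟩ := H1 g δ (1 / 2 ^ (n + 1)) hδ (by positivity)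
    obtain ⟨x, y, hxy, hr⟩ := H2 g'
    obtain ⟨a', ha'⟩ := exists_grid hxy hr h1
    choose p hp1 hp2 using fun j => ha.near hδ.le (a'.u j)
    have hhalf : (1 : ℝ) / 2 ^ (n + 1) ≤ 1 / 2 ^ n :=
      one_div_le_one_div_of_le (by positivity) (pow_le_pow_right₀ one_le_two (by omega))
    have e2 : (2 : ℝ) / 2 ^ n = 1 / 2 ^ n + 1 / 2 ^ n := by ring
    obtain ⟨N, J, I, J0, JN, hJ, hI, hQ⟩ := stutter (m := a'.n) p
      (fun j i => i ≤ a.n ∧ dist (φ (a'.u j)) (φ (a.u i)) ≤ 2 / 2 ^ n)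
      (fun j _ => ⟨hp1 j, (hcl _ _ (hp2 j)).trans (h12 n)⟩)
      (fun j hj i hbt => by
        have hin : i ≤ a.n := by
          have := hp1 j; have := hp1 (j + 1); unfold Btw at hbt; omega
        refine ⟨hin, ?_⟩
        have b1 := abs_le.1 (hp2 j)
        have b2 := abs_le.1 (hp2 (j + 1))
        have c1 : lo g (a'.u j) + hi g (a'.u j) - δ ≤ lo g (a.u i) + hi g (a.u i) ∨
            lo g (a'.u (j + 1)) + hi g (a'.u (j + 1)) - δ ≤ lo g (a.u i) + hi g (a.u i) := by
          by_cases hc : p j ≤ i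
          · left; have := ha.mono hc hin; linarith [b1.2]
          · right
            have := ha.mono (show p (j + 1) ≤ i by unfold Btw at hbt; omega) hin
            linarith [b2.2]
        have c2 : lo g (a.u i) + hi g (a.u i) ≤ lo g (a'.u j) + hi g (a'.u j) + δ ∨
            lo g (a.u i) + hi g (a.u i) ≤ lo g (a'.u (j + 1)) + hi g (a'.u (j + 1)) + δ := by
          by_cases hc : i ≤ p j
          · left; have := ha.mono hc (hp1 j); linarith [b1.1]
          · right
            have := ha.mono (show i ≤ p (j + 1) by unfold Btw at hbt; omega) (hp1 (j + 1))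
            linarith [b2.1]
        have d1 := ha'.1 j hj
        have d2 : |(lo g' (a'.u j) + hi g' (a'.u j)) -
            (lo g' (a'.u (j + 1)) + hi g' (a'.u (j + 1)))| ≤ δ' := by
          rw [abs_le]; constructor <;> linarith [d1.1, d1.2]
        have t1 := dist_triangle (φ (a'.u j)) (φ (a'.u (j + 1))) (φ (a.u i))
        have hpos : (0 : ℝ) ≤ 1 / 2 ^ n := by positivity
        rcases nest_or d2 with d3 | d3
        · obtain ⟨f1, f2⟩ := h2 _ _ (d3.mono (by linarith))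
          rcases nest_between hδ.le f1 c1 c2 with f3 | f3
          · have := hη _ _ f3
            rw [dist_comm] at this
            linarith
          · have := hη _ _ f3
            linarith
        · obtain ⟨f1, f2⟩ := h2 _ _ (d3.mono (by linarith))
          rw [dist_comm] at f2
          rcases nest_between hδ.le f1 c1.symm c2.symm with f3 | f3
          · have := hη _ _ f3
            rw [dist_comm] at this
            linarith
          · have := hη _ _ f3
            linarith)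
    refine ⟨⟨(g', δ', ⟨N, fun s => a'.u (J s)⟩), h1, fun K K' h => (h2 K K' h).2,
      fun s hs => ?_, fun K => ?_⟩, I, hI, fun s hs => (hQ s hs).2⟩
    · simp only at hs ⊢
      rcases hJ s hs with e | e
      · rw [e]; exact ⟨le_rfl, by linarith⟩
      · have := (hQ (s + 1) hs).1
        rw [e]
        exact ha'.1 _ (by omega)
    · simp only [J0, JN]
      exact ha'.2 K
  choose f h hf1 hf2 using hstep
  obtain ⟨q0, hq0⟩ := hinit
  let sq : ∀ n, {q // Good n q} := fun n => Nat.rec ⟨q0, hq0⟩ (fun n q => f n q) n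
  refine ⟨fun n => map φ (sq n).1.2.2, fun n => h n (sq n), ⟨fun n => hf1 n (sq n),
    fun n i hi => (hf2 n (sq n) i hi).1, fun n i hi => (hf2 n (sq n) i hi).2, fun n i hi => ?_⟩,
    fun n K => ?_⟩
  · refine (hclose n _ (sq n).2 _ _ ?_).trans (h12 n)
    have := (sq n).2.2.2.1 i hi
    have hδ := (sq n).2.1
    rw [abs_le]; constructor <;> linarith [this.1, this.2]
  · obtain ⟨i, hi, hi'⟩ := (sq n).2.2.2.near (sq n).2.1.le K
    refine ⟨i, hi, ?_⟩
    rw [dist_comm]
    exact (hclose n _ (sq n).2 _ _ hi').trans (h12 n)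

end Pool.Agent.Lib.MP_4bbdcb_gt
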