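import Mathlib

/-! Textbook definitions: chainable, weakly chainable, the hyperspace of subcontinua,
Whitney maps. -/

namespace Pool.Agent.Lib.MP_4bbdcb_gt.Hd

open TopologicalSpace

/-- a continuum: nonempty, compact, connected -/
def Continuum (X : Type) [MetricSpace X] : Prop :=
  Nonempty X ∧ CompactSpace X ∧ ConnectedSpace X

/-- finite open covers of small mesh that are chains -/
def Chainable (Y : Type) [MetricSpace Y] : Prop :=
  ∀ ε : ℝ, 0 < ε → ∃ (k : ℕ) (U : Fin k → Set Y), (∀ i, IsOpen (U i)) ∧ (⋃ i, U i) = Set.univ ∧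
    (∀ i, Metric.diam (U i) < ε) ∧
    ∀ i j, (U i ∩ U j).Nonempty ↔ |((i : ℕ) : ℤ) - ((j : ℕ) : ℤ)| ≤ 1

/-- a continuum that is a continuous image of a chainable continuum -/
def WeaklyChainable (X : Type) [MetricSpace X] : Prop :=
  Continuum X ∧ ∃ (Y : Type) (_ : MetricSpace Y), Continuum Y ∧ Chainable Y ∧
    ∃ f : Y → X, Continuous f ∧ Function.Surjective f

/-- the hyperspace of subcontinua, with the Hausdorff metric -/
abbrev CX (X : Type) [MetricSpace X] : Type :=
  {K : NonemptyCompacts X // IsConnected (K : Set X)}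

/-- Whitney maps -/
def IsWhitney {X : Type} [MetricSpace X] (μ : CX X → ℝ) : Prop :=
  Continuous μ ∧ (∀ A, 0 ≤ μ A) ∧ (∀ (A : CX X) (x : X), (A.1 : Set X) = {x} → μ A = 0) ∧
    ∀ A B : CX X, (A.1 : Set X) ⊂ (B.1 : Set X) → μ A < μ B

end Pool.Agent.Lib.MP_4bbdcb_gt.Hd
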