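import Pool.Agent.Lib.MP_4bbdcb_gt.Main
import Pool.Agent.Lib.MP_4bbdcb_gt.HDef

/-! Chain covers and maps to the line with small fibres; the theorem in textbook form. -/

namespace Pool.Agent.Lib.MP_4bbdcb_gt.Hd

open Set TopologicalSpace Metric

theorem map_of_chain {Y : Type} [MetricSpace Y] [CompactSpace Y] (h : Chainable Y) (ε : ℝ)
    (hε : ε > 0) : ∃ g : Y → ℝ, Continuous g ∧ ∀ r : ℝ, diam (g ⁻¹' {r}) < ε := by
  obtain ⟨k, U, ho, hc, hd, hi⟩ := h ε hε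
  obtain ⟨f, h1, h2, h3, -⟩ := exists_continuous_sum_one_of_isOpen_isCompact ho isCompact_univ
    hc.symm.subset
  have hs : ∀ y, ∑ i, f i y = 1 := fun y => by simpa using h2 (mem_univ y)
  refine ⟨fun y => ∑ i, f i y * ((i : ℕ) : ℝ), by fun_prop, fun r => ?_⟩
  have key : ∀ y, (∑ i, f i y * ((i : ℕ) : ℝ)) = r → ∃ i, y ∈ U i ∧ ((i : ℕ) : ℤ) = ⌊r⌋ := by
    intro y hy
    have hU : ∀ i, f i y ≠ 0 → y ∈ U i := fun i hne => h1 i (subset_tsupport _ hne)
    have hex : ∃ i, f i y ≠ 0 := by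
      by_contra hn
      push Not at hn
      have := hs y
      simp [hn] at this
    have lo : ∃ i, f i y ≠ 0 ∧ ((i : ℕ) : ℝ) ≤ r := by
      by_contra hn
      push Not at hn
      have : ∑ i, f i y * r < ∑ i, f i y * ((i : ℕ) : ℝ) := by
        refine Finset.sum_lt_sum (fun i _ => ?_) ?_
        · by_cases h0 : f i y = 0
          · simp [h0]
          · exact mul_le_mul_of_nonneg_left (hn i h0).le (h3 i y).1
        · obtain ⟨i, h0⟩ := hex
          exact ⟨i, Finset.mem_univ _,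
            mul_lt_mul_of_pos_left (hn i h0) (lt_of_le_of_ne (h3 i y).1 (Ne.symm h0))⟩
      rw [← Finset.sum_mul, hs, one_mul, hy] at this
      exact lt_irrefl _ this
    have up : ∃ i, f i y ≠ 0 ∧ r ≤ ((i : ℕ) : ℝ) := by
      by_contra hn
      push Not at hn
      have : ∑ i, f i y * ((i : ℕ) : ℝ) < ∑ i, f i y * r := by
        refine Finset.sum_lt_sum (fun i _ => ?_) ?_
        · by_cases h0 : f i y = 0
          · simp [h0]
          · exact mul_le_mul_of_nonneg_left (hn i h0).le (h3 i y).1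
        · obtain ⟨i, h0⟩ := hex
          exact ⟨i, Finset.mem_univ _,
            mul_lt_mul_of_pos_left (hn i h0) (lt_of_le_of_ne (h3 i y).1 (Ne.symm h0))⟩
      rw [← Finset.sum_mul, hs, one_mul, hy] at this
      exact lt_irrefl _ this
    obtain ⟨i, hi0, hir⟩ := lo
    obtain ⟨j, hj0, hjr⟩ := up
    have hij := abs_le.mp ((hi i j).mp ⟨y, hU i hi0, hU j hj0⟩)
    by_cases hlt : r < ((i : ℕ) : ℝ) + 1
    · exact ⟨i, hU i hi0, (Int.floor_eq_iff.mpr ⟨by exact_mod_cast hir, by exact_mod_cast hlt⟩).symm⟩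
    · have h4 : ((j : ℕ) : ℝ) ≤ ((i : ℕ) : ℝ) + 1 := by
        have : ((j : ℕ) : ℤ) ≤ ((i : ℕ) : ℤ) + 1 := by linarith [hij.1]
        exact_mod_cast this
      have h5 : r = ((j : ℕ) : ℝ) := le_antisymm hjr (by linarith [not_lt.mp hlt])
      exact ⟨j, hU j hj0, by rw [h5]; simp⟩
  rcases eq_empty_or_nonempty ((fun y => ∑ i, f i y * ((i : ℕ) : ℝ)) ⁻¹' {r}) with h0 | ⟨y, hy⟩
  · rw [h0, diam_empty]; exact hε
  · obtain ⟨i, -, hir⟩ := key y hy
    refine lt_of_le_of_lt (diam_mono (fun z hz => ?_) isBounded_of_compactSpace) (hd i)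
    obtain ⟨j, hj, hjr⟩ := key z hz
    have : j = i := Fin.ext (by exact_mod_cast hjr.trans hir.symm)
    exact this ▸ hj

theorem chain_of_map {Y : Type} [MetricSpace Y] [CompactSpace Y] [ConnectedSpace Y]
    (h : ∀ ε : ℝ, ε > 0 → ∃ g : Y → ℝ, Continuous g ∧ ∀ r : ℝ, diam (g ⁻¹' {r}) < ε) :
    Chainable Y := by
  intro ε hε
  obtain ⟨g, hg, hd⟩ := h (ε / 2) (half_pos hε)
  obtain ⟨δ, hδ, hδ'⟩ : ∃ δ : ℝ, 0 < δ ∧ ∀ y z, |g y - g z| < δ → dist y z ≤ ε / 2 := by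
    have hc : IsCompact {p : Y × Y | ε / 2 ≤ dist p.1 p.2} :=
      (isClosed_le continuous_const continuous_dist).isCompact
    obtain ⟨δ, hδ, h2⟩ := hc.exists_forall_le' (f := fun p : Y × Y => |g p.1 - g p.2|) (a := 0)
      (by fun_prop) (fun p hp => by
        refine abs_pos.mpr (sub_ne_zero.mpr fun he => ?_)
        have h3 : dist p.1 p.2 ≤ diam (g ⁻¹' {g p.2}) :=
          dist_le_diam_of_mem isBounded_of_compactSpace he rfl
        exact absurd (lt_of_le_of_lt h3 (hd _)) (not_lt.mpr hp))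
    refine ⟨δ, hδ, fun y z hyz => ?_⟩
    by_contra hn
    exact absurd (h2 (y, z) (not_le.mp hn).le) (not_le.mpr hyz)
  obtain ⟨ya, -, ha⟩ := isCompact_univ.exists_isMinOn univ_nonempty hg.continuousOn
  obtain ⟨yb, -, hb⟩ := isCompact_univ.exists_isMaxOn univ_nonempty hg.continuousOn
  set s := δ / 2 with hs
  have hs0 : 0 < s := half_pos hδ
  let u : Y → ℝ := fun y => (g y - g ya) / s
  have hu : Continuous u := by fun_prop
  have hu0 : ∀ y, 0 ≤ u y := fun y => div_nonneg (sub_nonneg.mpr (ha (mem_univ y))) hs0.le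
  have hu1 : ∀ y, u y ≤ u yb := fun y =>
    div_le_div_of_nonneg_right (sub_le_sub_right (hb (mem_univ y)) _) hs0.le
  have hval : ∀ i : Fin (⌊u yb⌋₊ + 1), ∃ y, u y = ((i : ℕ) : ℝ) := fun i => by
    refine intermediate_value_univ ya yb hu ⟨by simp [u], ?_⟩
    exact le_trans (by exact_mod_cast Nat.lt_succ_iff.mp i.2) (Nat.floor_le (hu0 yb))
  refine ⟨⌊u yb⌋₊ + 1, fun i => u ⁻¹' Ioo (((i : ℕ) : ℝ) - 1 / 3) (((i : ℕ) : ℝ) + 4 / 3),
    fun i => isOpen_Ioo.preimage hu, ?_, fun i => ?_, fun i j => ⟨?_, fun hij => ?_⟩⟩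
  · refine eq_univ_of_forall fun y => mem_iUnion.mpr
      ⟨⟨⌊u y⌋₊, Nat.lt_succ_iff.mpr (Nat.floor_le_floor (hu1 y))⟩, ?_, ?_⟩
    · have := Nat.floor_le (hu0 y)
      show ((⌊u y⌋₊ : ℕ) : ℝ) - 1 / 3 < u y
      linarith
    · have := Nat.lt_floor_add_one (u y)
      show u y < ((⌊u y⌋₊ : ℕ) : ℝ) + 4 / 3
      linarith
  · refine lt_of_le_of_lt (diam_le_of_forall_dist_le (half_pos hε).le fun y hy z hz => ?_)
      (half_lt_self hε)
    apply hδ'
    have h1 : g y - g z = (u y - u z) * s := by simp only [u]; field_simp; ring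
    have h2 : |u y - u z| < 2 := abs_lt.mpr ⟨by linarith [hy.1, hz.2], by linarith [hy.2, hz.1]⟩
    rw [h1, abs_mul, abs_of_pos hs0]
    nlinarith
  · rintro ⟨y, hy, hz⟩
    have h1 : ((i : ℕ) : ℝ) < ((j : ℕ) : ℝ) + 2 := by linarith [hy.1, hz.2]
    have h2 : ((j : ℕ) : ℝ) < ((i : ℕ) : ℝ) + 2 := by linarith [hy.2, hz.1]
    have h3 : (i : ℕ) < (j : ℕ) + 2 := by exact_mod_cast h1
    have h4 : (j : ℕ) < (i : ℕ) + 2 := by exact_mod_cast h2
    rw [abs_le]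
    omega
  · rw [abs_le] at hij
    have h1 : ((i : ℕ) : ℝ) ≤ ((j : ℕ) : ℝ) + 1 := by
      have : (i : ℕ) ≤ (j : ℕ) + 1 := by omega
      exact_mod_cast this
    have h2 : ((j : ℕ) : ℝ) ≤ ((i : ℕ) : ℝ) + 1 := by
      have : (j : ℕ) ≤ (i : ℕ) + 1 := by omega
      exact_mod_cast this
    rcases le_total (i : ℕ) (j : ℕ) with h3 | h3
    · obtain ⟨y, hy⟩ := hval j
      have h4 : ((i : ℕ) : ℝ) ≤ ((j : ℕ) : ℝ) := by exact_mod_cast h3
      exact ⟨y, ⟨by rw [hy]; linarith, by rw [hy]; linarith⟩, by rw [hy]; linarith,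
        by rw [hy]; linarith⟩
    · obtain ⟨y, hy⟩ := hval i
      have h4 : ((j : ℕ) : ℝ) ≤ ((i : ℕ) : ℝ) := by exact_mod_cast h3
      exact ⟨y, ⟨by rw [hy]; linarith, by rw [hy]; linarith⟩, by rw [hy]; linarith,
        by rw [hy]; linarith⟩

theorem main (X : Type) [MetricSpace X] (hX : WeaklyChainable X) (μ : CX X → ℝ)
    (hμ : IsWhitney μ) (T : CX X) (hT : (T.1 : Set X) = univ) (t : ℝ) (ht : t ∈ Icc 0 (μ T)) :
    WeaklyChainable (μ ⁻¹' {t}) := by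
  classical
  obtain ⟨⟨_, _, _⟩, Y, _, ⟨_, hY1, hY2⟩, hY, f, hf, hfs⟩ := hX
  obtain ⟨hc, -, hpt, hlt⟩ := hμ
  let ν : NonemptyCompacts X → ℝ := fun K => if h : IsConnected (K : Set X) then μ ⟨K, h⟩ else 0
  have hν : ∀ (K : NonemptyCompacts X) (h : IsConnected (K : Set X)), ν K = μ ⟨K, h⟩ :=
    fun K h => dif_pos h
  have hW : Wh ν := by
    refine ⟨?_, fun A hA B hB hAB => ?_⟩
    · rw [continuousOn_iff_continuous_domRestrict]
      exact hc.congr fun K => (hν K.1 K.2).symm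
    · rw [hν A hA, hν B hB]
      exact hlt _ _ hAB
  have h0 : ∀ x, ν {x} = 0 := fun x => (hν _ (singleton_mem_CC x)).trans (hpt _ x rfl)
  have hne : ∃ K ∈ CC X, ν K = t := by
    obtain ⟨x⟩ : Nonempty X := inferInstance
    obtain ⟨M, hM, -, h3⟩ := exists_chain hW (singleton_mem_CC x) T.2
      (singleton_le_NC (by rw [hT]; exact mem_univ x))
    obtain ⟨C, hC, hCt⟩ := h3 t (by rw [h0, hν _ T.2]; exact ht)
    exact ⟨C, (hM hC).1, hCt⟩
  obtain ⟨Z, _, hZ1, hZ2, hZ, p, hp, hps⟩ :=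
    wc_level ⟨Y, inferInstance, hY1, hY2, map_of_chain hY, f, hf, hfs⟩ hW h0 hne
  let q : Z → (μ ⁻¹' {t}) := fun z => ⟨⟨(p z).1, (p z).2.1⟩, (hν _ (p z).2.1).symm.trans (p z).2.2⟩
  have hq : Continuous q := by
    refine Continuous.subtype_mk (Continuous.subtype_mk ?_ _) _
    exact continuous_subtype_val.comp hp
  have hqs : Function.Surjective q := fun K => by
    obtain ⟨z, hz⟩ := hps ⟨K.1.1, K.1.2, (hν _ K.1.2).trans K.2⟩
    have h5 : (p z).1 = K.1.1 := congrArg Subtype.val hz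
    exact ⟨z, Subtype.ext (Subtype.ext h5)⟩
  have hcn : ConnectedSpace (μ ⁻¹' {t}) := hqs.connectedSpace hq
  exact ⟨⟨inferInstance, hqs.compactSpace hq, hcn⟩, Z, inferInstance, ⟨inferInstance, hZ1, hZ2⟩,
    chain_of_map hZ, q, hq, hqs⟩

end Pool.Agent.Lib.MP_4bbdcb_gt.Hd
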