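import Mathlib

/-!
The hyperspace of subcontinua: closedness, boundary bumping, order arcs.
-/

set_option autoImplicit false

namespace Pool.Agent.Lib.MP_4bbdcb_gt

open Set Filter Topology TopologicalSpace Metric

variable {X : Type} [MetricSpace X] [CompactSpace X]

/-- The subcontinua of `X`. -/
def CC (X : Type) [TopologicalSpace X] : Set (NonemptyCompacts X) :=
  {K | IsConnected (K : Set X)}

omit [CompactSpace X] in
theorem isClosed_CC : IsClosed (CC X) := by
  rw [← isOpen_compl_iff, isOpen_iff_forall_mem_open]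
  intro K hK
  have hK' : ¬ IsPreconnected (K : Set X) := fun h => hK ⟨K.nonempty, h⟩
  rw [isPreconnected_iff_subset_of_fully_disjoint_closed K.isCompact.isClosed] at hK'
  push Not at hK'
  obtain ⟨u, v, hu, hv, huv, hd, h1, h2⟩ := hK'
  obtain ⟨U, V, hU, hV, a1, a2, a3⟩ := normal_separation hu hv hd
  obtain ⟨x, hx, hxu⟩ := not_subset.1 h1
  obtain ⟨y, hy, hyv⟩ := not_subset.1 h2
  refine ⟨{L | (L : Set X) ⊆ U ∪ V} ∩ ({L | ((L : Set X) ∩ U).Nonempty} ∩
    {L | ((L : Set X) ∩ V).Nonempty}), ?_, ?_, ?_⟩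
  · rintro L ⟨b1, b2, b3⟩ hL
    obtain ⟨z, -, hz⟩ := hL.2 U V hU hV b1 b2 b3
    exact disjoint_left.1 a3 hz.1 hz.2
  · exact (NonemptyCompacts.isOpen_subsets_of_isOpen (hU.union hV)).inter
      ((NonemptyCompacts.isOpen_inter_nonempty_of_isOpen hU).inter
        (NonemptyCompacts.isOpen_inter_nonempty_of_isOpen hV))
  · exact ⟨huv.trans (union_subset_union a1 a2), ⟨y, hy, a1 ((huv hy).resolve_right hyv)⟩,
      ⟨x, hx, a2 ((huv hx).resolve_left hxu)⟩⟩

theorem isCompact_CC : IsCompact (CC X) := isClosed_CC.isCompact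

omit [CompactSpace X] in
theorem isClosed_le_NC : IsClosed {p : NonemptyCompacts X × NonemptyCompacts X | p.1 ≤ p.2} := by
  have : {p : NonemptyCompacts X × NonemptyCompacts X | p.1 ≤ p.2} = {p | p.1 ⊔ p.2 = p.2} := by
    ext p; simp
  rw [this]
  exact isClosed_eq continuous_sup continuous_snd

omit [CompactSpace X] in
theorem sup_mem_CC {A B : NonemptyCompacts X} (hA : A ∈ CC X) (hB : B ∈ CC X) {x : X}
    (hxA : x ∈ (A : Set X)) (hxB : x ∈ (B : Set X)) : A ⊔ B ∈ CC X :=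
  IsConnected.union ⟨x, hxA, hxB⟩ hA hB

omit [CompactSpace X] in
theorem singleton_mem_CC (x : X) : ({x} : NonemptyCompacts X) ∈ CC X := isConnected_singleton

omit [CompactSpace X] in
theorem singleton_le_NC {x : X} {A : NonemptyCompacts X} (h : x ∈ (A : Set X)) :
    ({x} : NonemptyCompacts X) ≤ A := singleton_subset_iff.2 h

omit [CompactSpace X] in
theorem dist_sup_le {A B : NonemptyCompacts X} {δ : ℝ} (hδ : 0 ≤ δ)
    (h : ∀ x ∈ (A : Set X), ∃ y ∈ (B : Set X), dist x y ≤ δ) : dist (A ⊔ B) B ≤ δ := by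
  rw [NonemptyCompacts.dist_eq]
  refine hausdorffDist_le_of_mem_dist hδ ?_ ?_
  · rintro x (hx | hx)
    · exact h x hx
    · exact ⟨x, hx, by simpa using hδ⟩
  · intro x hx
    exact ⟨x, Or.inr hx, by simpa using hδ⟩

/-- A continuous strictly monotone function on subcontinua. -/
structure Wh (ν : NonemptyCompacts X → ℝ) : Prop where
  cont : ContinuousOn ν (CC X)
  lt : ∀ A ∈ CC X, ∀ B ∈ CC X, A < B → ν A < ν B

omit [CompactSpace X] in
theorem Wh.le {ν : NonemptyCompacts X → ℝ} (h : Wh ν) {A B : NonemptyCompacts X} (hA : A ∈ CC X)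
    (hB : B ∈ CC X) (hAB : A ≤ B) : ν A ≤ ν B := by
  rcases hAB.eq_or_lt with rfl | h'
  · exact le_rfl
  · exact (h.lt A hA B hB h').le

omit [CompactSpace X] in
theorem Wh.eq_of_le {ν : NonemptyCompacts X → ℝ} (h : Wh ν) {A B : NonemptyCompacts X}
    (hA : A ∈ CC X) (hB : B ∈ CC X) (hAB : A ≤ B) (hν : ν B ≤ ν A) : A = B := by
  rcases hAB.eq_or_lt with rfl | h'
  · rfl
  · exact absurd (h.lt A hA B hB h') (not_lt.2 hν)

theorem Wh.near {ν : NonemptyCompacts X → ℝ} (h : Wh ν) {η : ℝ} (hη : 0 < η) :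
    ∃ δ, 0 < δ ∧ ∀ A ∈ CC X, ∀ B ∈ CC X, dist (A ⊔ B) B ≤ δ → ν B ≤ ν A + δ → dist A B ≤ η := by
  have hc : IsCompact ((CC X ×ˢ CC X) ∩ {p | η ≤ dist p.1 p.2}) :=
    (isCompact_CC.prod isCompact_CC).inter_right (isClosed_le continuous_const continuous_dist)
  have hf : ContinuousOn (fun p : NonemptyCompacts X × NonemptyCompacts X =>
      max (dist (p.1 ⊔ p.2) p.2) (ν p.2 - ν p.1)) ((CC X ×ˢ CC X) ∩ {p | η ≤ dist p.1 p.2}) := by
    refine ContinuousOn.sup (Continuous.continuousOn (continuous_sup.dist continuous_snd)) ?_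
    exact (h.cont.comp continuous_snd.continuousOn fun p hp => hp.1.2).sub
      (h.cont.comp continuous_fst.continuousOn fun p hp => hp.1.1)
  obtain ⟨a, ha, ha'⟩ := hc.exists_forall_le' hf (a := 0) (by
    rintro ⟨A, B⟩ ⟨⟨hA, hB⟩, hd⟩
    by_contra hcon
    rw [not_lt, max_le_iff] at hcon
    have e : A ⊔ B = B := dist_le_zero.1 hcon.1
    have e' := h.eq_of_le hA hB (sup_eq_right.1 e) (by linarith [hcon.2])
    simp only at e'
    have hd' : η ≤ dist A B := hd
    rw [e', dist_self] at hd'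
    linarith)
  refine ⟨a / 2, by linarith, fun A hA B hB h1 h2 => ?_⟩
  by_contra hcon
  have := ha' (A, B) ⟨⟨hA, hB⟩, (not_le.1 hcon).le⟩
  rw [le_max_iff] at this
  rcases this with h3 | h3 <;> simp only at h3 <;> linarith

theorem bump {A B : NonemptyCompacts X} (hA : A ∈ CC X) (hB : B ∈ CC X) (hAB : A < B) :
    ∃ D ∈ CC X, A < D ∧ D < B := by
  obtain ⟨p, hpB, hpA⟩ := exists_of_ssubset (show (A : Set X) ⊂ B from hAB)
  have hpos : 0 < infDist p A :=
    (A.isCompact.isClosed.notMem_iff_infDist_pos A.nonempty).1 hpA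
  set ρ := infDist p A / 2 with hρ
  have hAd : ∀ x ∈ (A : Set X), ρ < dist p x := fun x hx => by
    have := infDist_le_dist_of_mem (x := p) hx
    linarith
  set N : Set X := (B : Set X) ∩ {x | ρ ≤ dist p x} with hN
  have hNc : IsCompact N :=
    B.isCompact.inter_right (isClosed_le continuous_const (continuous_const.dist continuous_id))
  have hAN : (A : Set X) ⊆ N := fun x hx => ⟨hAB.le hx, (hAd x hx).le⟩
  obtain ⟨a, ha⟩ := A.nonempty
  have : CompactSpace N := isCompact_iff_compactSpace.1 hNc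
  have hDe : connectedComponentIn N a = Subtype.val '' connectedComponent (⟨a, hAN ha⟩ : N) :=
    connectedComponentIn_eq_image (hAN ha)
  have hDc : IsCompact (connectedComponentIn N a) := by
    rw [hDe]; exact isClosed_connectedComponent.isCompact.image continuous_subtype_val
  have hAD : (A : Set X) ⊆ connectedComponentIn N a :=
    hA.2.subset_connectedComponentIn ha hAN
  have hDN : connectedComponentIn N a ⊆ N := connectedComponentIn_subset _ _
  refine ⟨⟨⟨connectedComponentIn N a, hDc⟩, ⟨a, hAD ha⟩⟩,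
    isConnected_connectedComponentIn_iff.2 (hAN ha), lt_of_le_of_ne hAD ?_,
    lt_of_le_of_ne (hDN.trans inter_subset_left) ?_⟩
  · intro he
    have he' : (A : Set X) = connectedComponentIn N a := congrArg SetLike.coe he
    have hF : IsCompact {x : N | dist p x.1 = ρ} :=
      (isClosed_eq (continuous_const.dist continuous_subtype_val) continuous_const).isCompact
    have hempty : {x : N | dist p x.1 = ρ} ∩
        ⋂ s : {s : Set N // IsClopen s ∧ (⟨a, hAN ha⟩ : N) ∈ s}, (s : Set N) = ∅ := by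
      rw [← connectedComponent_eq_iInter_isClopen, eq_empty_iff_forall_notMem]
      rintro x ⟨hx1, hx2⟩
      have : x.1 ∈ (A : Set X) := by rw [he', hDe]; exact mem_image_of_mem _ hx2
      have := hAd _ this
      have hx1' : dist p x.1 = ρ := hx1
      linarith
    have : Nonempty {s : Set N // IsClopen s ∧ (⟨a, hAN ha⟩ : N) ∈ s} :=
      ⟨⟨univ, isClopen_univ, mem_univ _⟩⟩
    obtain ⟨Z, hZ⟩ := hF.elim_directed_family_closed _ (fun s => s.2.1.isClosed) hempty
      (fun s t => ⟨⟨s.1 ∩ t.1, s.2.1.inter t.2.1, s.2.2, t.2.2⟩, inter_subset_left,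
        inter_subset_right⟩)
    obtain ⟨U, hU, hUZ⟩ := isOpen_induced_iff.1 Z.2.1.isOpen
    have hZc : IsClosed (Subtype.val '' Z.1) :=
      (Z.2.1.isClosed.isCompact.image continuous_subtype_val).isClosed
    obtain ⟨x, hxB, ⟨hxU, hxd⟩, hxZ⟩ := hB.2 (U ∩ {x | ρ < dist p x}) (Subtype.val '' Z.1)ᶜ
      (hU.inter (isOpen_lt continuous_const (continuous_const.dist continuous_id)))
      hZc.isOpen_compl (fun x hx => by
        by_cases hxZ : x ∈ Subtype.val '' Z.1
        · left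
          obtain ⟨y, hy, rfl⟩ := hxZ
          refine ⟨by rw [← hUZ] at hy; exact hy,
            (lt_of_le_of_ne (show ρ ≤ dist p y.1 from y.2.2) fun e => ?_ : ρ < dist p y.1)⟩
          exact eq_empty_iff_forall_notMem.1 hZ y ⟨e.symm, hy⟩
        · exact Or.inr hxZ)
      ⟨a, hAB.le ha, by have := Z.2.2; rw [← hUZ] at this; exact this, hAd a ha⟩
      ⟨p, hpB, by
        rintro ⟨y, -, hy⟩
        have : ρ ≤ dist p y.1 := y.2.2
        rw [hy, dist_self] at this
        linarith⟩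
    have hxd' : ρ < dist p x := hxd
    exact hxZ ⟨⟨x, hxB, hxd'.le⟩, by rw [← hUZ]; exact hxU, rfl⟩
  · intro he
    have he' : connectedComponentIn N a = (B : Set X) := congrArg SetLike.coe he
    have : p ∈ N := hDN (by rw [he']; exact hpB)
    have : ρ ≤ dist p p := this.2
    rw [dist_self] at this
    linarith

theorem exists_chain {ν : NonemptyCompacts X → ℝ} (h : Wh ν) {A B : NonemptyCompacts X}
    (hA : A ∈ CC X) (hB : B ∈ CC X) (hAB : A ≤ B) :
    ∃ M : Set (NonemptyCompacts X), M ⊆ CC X ∩ Icc A B ∧ IsChain (· ≤ ·) M ∧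
      ∀ r ∈ Icc (ν A) (ν B), ∃ C ∈ M, ν C = r := by
  obtain ⟨M, hM⟩ := zorn_subset {M : Set (NonemptyCompacts X) |
      M ⊆ CC X ∩ Icc A B ∧ IsChain (· ≤ ·) M} (fun c hc hch => ⟨⋃₀ c,
        ⟨sUnion_subset fun M hM => (hc hM).1,
          (Set.pairwise_sUnion hch.directedOn).2 fun M hM => (hc hM).2⟩,
        fun M hM => subset_sUnion_of_mem hM⟩)
  obtain ⟨hM1, hM2⟩ := hM.prop
  have hins : ∀ D ∈ CC X ∩ Icc A B, (∀ C ∈ M, C ≤ D ∨ D ≤ C) → D ∈ M := by
    intro D hD hD'
    refine hM.mem_of_prop_insert ⟨insert_subset hD hM1, hM2.insert fun C hC _ => (hD' C hC).symm⟩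
  have hAM : A ∈ M := hins A ⟨hA, le_rfl, hAB⟩ fun C hC => Or.inr (hM1 hC).2.1
  have hBM : B ∈ M := hins B ⟨hB, hAB, le_rfl⟩ fun C hC => Or.inl (hM1 hC).2.2
  have hIic : ∀ C : NonemptyCompacts X, IsClosed {D | D ≤ C} := fun C =>
    isClosed_le_NC.preimage (f := fun D => (D, C)) (by fun_prop)
  have hIci : ∀ C : NonemptyCompacts X, IsClosed {D | C ≤ D} := fun C =>
    isClosed_le_NC.preimage (f := fun D => (C, D)) (by fun_prop)
  have hMc : IsClosed M := by
    rw [← closure_subset_iff_isClosed]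
    intro D hD
    refine hins D (closure_minimal hM1 (isClosed_CC.inter ((hIci A).inter (hIic B))) hD)
      fun C hC => ?_
    exact closure_minimal (t := {D | C ≤ D} ∪ {D | D ≤ C}) (fun E hE => hM2.total hC hE)
      ((hIci C).union (hIic C)) hD
  have hcont : ContinuousOn ν M := h.cont.mono fun C hC => (hM1 hC).1
  refine ⟨M, hM1, hM2, fun r hr => ?_⟩
  by_contra hcon
  push Not at hcon
  have hc1 : IsCompact (M ∩ ν ⁻¹' Iic r) :=
    (hcont.preimage_isClosed_of_isClosed hMc isClosed_Iic).isCompact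
  have hc2 : IsCompact (M ∩ ν ⁻¹' Ici r) :=
    (hcont.preimage_isClosed_of_isClosed hMc isClosed_Ici).isCompact
  obtain ⟨C1, ⟨a1, a2⟩, a3⟩ := hc1.exists_isMaxOn ⟨A, hAM, hr.1⟩ (hcont.mono inter_subset_left)
  obtain ⟨C2, ⟨b1, b2⟩, b3⟩ := hc2.exists_isMinOn ⟨B, hBM, hr.2⟩ (hcont.mono inter_subset_left)
  have a2' : ν C1 < r := lt_of_le_of_ne a2 (hcon C1 a1)
  have b2' : r < ν C2 := lt_of_le_of_ne b2 (hcon C2 b1).symm
  have hle : ∀ C ∈ M, ∀ D ∈ M, ν C ≤ ν D → C ≤ D := by
    intro C hC D hD hCD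
    rcases hM2.total hC hD with h' | h'
    · exact h'
    · exact (h.eq_of_le (hM1 hD).1 (hM1 hC).1 h' hCD).ge
  have h12 : C1 < C2 := lt_of_le_of_ne (hle C1 a1 C2 b1 (by linarith)) (by
    rintro rfl; linarith)
  obtain ⟨D, hD, d1, d2⟩ := bump (hM1 a1).1 (hM1 b1).1 h12
  have hDM : D ∈ M := by
    refine hins D ⟨hD, (hM1 a1).2.1.trans d1.le, d2.le.trans (hM1 b1).2.2⟩ fun C hC => ?_
    rcases le_total (ν C) r with h' | h'
    · exact Or.inl ((hle C hC C1 a1 (a3 ⟨hC, h'⟩)).trans d1.le)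
    · exact Or.inr (d2.le.trans (hle C2 b1 C hC (b3 ⟨hC, h'⟩)))
  have e1 := h.lt _ (hM1 a1).1 _ hD d1
  have e2 := h.lt _ hD _ (hM1 b1).1 d2
  rcases le_total (ν D) r with h' | h'
  · have : ν D ≤ ν C1 := a3 ⟨hDM, h'⟩
    linarith
  · have : ν C2 ≤ ν D := b3 ⟨hDM, h'⟩
    linarith

/-- Order arcs parametrized by `ν`. -/
theorem exists_arc {ν : NonemptyCompacts X → ℝ} (h : Wh ν) {A B : NonemptyCompacts X}
    (hA : A ∈ CC X) (hB : B ∈ CC X) (hAB : A ≤ B) :
    ∃ α : ℝ → NonemptyCompacts X, (∀ r, α r ∈ CC X) ∧ Monotone α ∧ Continuous α ∧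
      (∀ r ∈ Icc (ν A) (ν B), ν (α r) = r) ∧ (∀ r, A ≤ α r) ∧ α (ν A) = A ∧ α (ν B) = B := by
  obtain ⟨M, hM1, hM2, hM3⟩ := exists_chain h hA hB hAB
  have hν := h.le hA hB hAB
  choose α hα1 hα2 using fun r => hM3 _ (projIcc (ν A) (ν B) hν r).2
  have hle : ∀ C ∈ M, ∀ D ∈ M, ν C ≤ ν D → C ≤ D := by
    intro C hC D hD hCD
    rcases hM2.total hC hD with h' | h'
    · exact h'
    · exact (h.eq_of_le (hM1 hD).1 (hM1 hC).1 h' hCD).ge
  have hmono : Monotone α := fun r s hrs => hle _ (hα1 r) _ (hα1 s) (by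
    rw [hα2, hα2]; exact monotone_projIcc hν hrs)
  have hval : ∀ r ∈ Icc (ν A) (ν B), ν (α r) = r := fun r hr => by
    rw [hα2, projIcc_of_mem hν hr]
  refine ⟨α, fun r => (hM1 (hα1 r)).1, hmono, ?_, hval, fun r => (hM1 (hα1 r)).2.1, ?_, ?_⟩
  · refine UniformContinuous.continuous (Metric.uniformContinuous_iff_le.2 fun η hη => ?_)
    obtain ⟨δ, hδ, hδ'⟩ := h.near hη
    have key : ∀ r s, r ≤ s → dist r s ≤ δ → dist (α r) (α s) ≤ η := by
      intro r s hrs hd
      refine hδ' _ (hM1 (hα1 r)).1 _ (hM1 (hα1 s)).1 ?_ ?_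
      · rw [sup_eq_right.2 (hmono hrs), dist_self]; exact hδ.le
      · rw [hα2, hα2]
        have := (LipschitzWith.projIcc hν).dist_le_mul s r
        rw [NNReal.coe_one, one_mul, Subtype.dist_eq, Real.dist_eq, dist_comm] at this
        linarith [le_abs_self ((projIcc (ν A) (ν B) hν s : ℝ) - projIcc (ν A) (ν B) hν r)]
    refine ⟨δ, hδ, fun r s hd => ?_⟩
    rcases le_total r s with h' | h'
    · exact key r s h' hd
    · rw [dist_comm] at hd ⊢; exact key s r h' hd
  · exact (h.eq_of_le hA (hM1 (hα1 _)).1 (hM1 (hα1 _)).2.1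
      (hval _ (left_mem_Icc.2 hν)).le).symm
  · exact h.eq_of_le (hM1 (hα1 _)).1 hB (hM1 (hα1 _)).2.2 (hval _ (right_mem_Icc.2 hν)).ge

theorem exists_wh [Nonempty X] : ∃ ν : NonemptyCompacts X → ℝ, Wh ν := by
  obtain ⟨x, hx⟩ := exists_dense_seq X
  obtain ⟨R, hR⟩ := (isBounded_iff.1 (isCompact_univ (X := X)).isBounded)
  have hb : ∀ n (K : NonemptyCompacts X), ‖-((1 / 2 : ℝ) ^ n * infDist (x n) K)‖ ≤
      (1 / 2 : ℝ) ^ n * R := by
    intro n K
    obtain ⟨y, hy⟩ := K.nonempty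
    rw [norm_neg, Real.norm_of_nonneg (mul_nonneg (by positivity) infDist_nonneg)]
    exact mul_le_mul_of_nonneg_left ((infDist_le_dist_of_mem hy).trans
      (hR (mem_univ _) (mem_univ _))) (by positivity)
  have hs : Summable fun n : ℕ => (1 / 2 : ℝ) ^ n * R := summable_geometric_two.mul_right R
  refine ⟨fun K => ∑' n, -((1 / 2 : ℝ) ^ n * infDist (x n) K), ?_, fun A _ B _ hAB => ?_⟩
  · refine (continuous_tsum (fun n => ?_) hs hb).continuousOn
    exact (continuous_const.mul (lipschitz_infDist_set (x n)).continuous).neg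
  · obtain ⟨p, hpB, hpA⟩ := exists_of_ssubset (show (A : Set X) ⊂ B from hAB)
    have hpos : 0 < infDist p A :=
      (A.isCompact.isClosed.notMem_iff_infDist_pos A.nonempty).1 hpA
    obtain ⟨n, hn⟩ := hx.exists_dist_lt p (half_pos hpos)
    refine Summable.tsum_lt_tsum (i := n) (fun m => ?_) ?_ (Summable.of_norm_bounded hs (hb · A))
      (Summable.of_norm_bounded hs (hb · B))
    · exact neg_le_neg (mul_le_mul_of_nonneg_left
        (infDist_le_infDist_of_subset hAB.le A.nonempty) (by positivity))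
    · refine neg_lt_neg (mul_lt_mul_of_pos_left ?_ (by positivity))
      have a1 := infDist_le_dist_of_mem (x := x n) hpB
      have a2 := infDist_le_infDist_add_dist (x := p) (y := x n) (s := (A : Set X))
      rw [dist_comm] at a1
      linarith

end Pool.Agent.Lib.MP_4bbdcb_gt
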