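import Mathlib
import Pool.Agent.Lib.MP_4bbdcb_gt.Base
import Pool.Agent.Lib.MP_4bbdcb_gt.Hyper

/-!
Whitney levels of weakly chainable continua are weakly chainable.
-/

set_option autoImplicit false
set_option linter.unusedSectionVars false

namespace Pool.Agent.Lib.MP_4bbdcb_gt

open Set Filter Topology TopologicalSpace Metric

section Size

variable {Y : Type} [MetricSpace Y] [CompactSpace Y] [ConnectedSpace Y]

theorem top_mem_CC : (⊤ : NonemptyCompacts Y) ∈ CC Y := isConnected_univ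

/-- A continuous monotone function on subcontinua, vanishing on points. -/
structure Sz (σ : NonemptyCompacts Y → ℝ) : Prop where
  cont : ContinuousOn σ (CC Y)
  le : ∀ A ∈ CC Y, ∀ B ∈ CC Y, A ≤ B → σ A ≤ σ B
  pt : ∀ y, σ {y} = 0

theorem Sz.isClosed_level {σ : NonemptyCompacts Y → ℝ} (h : Sz σ) (t : ℝ) :
    IsClosed {K | K ∈ CC Y ∧ σ K = t} :=
  h.cont.preimage_isClosed_of_isClosed isClosed_CC isClosed_singleton

theorem Sz.cover {σ : NonemptyCompacts Y → ℝ} (h : Sz σ) {t : ℝ} (h0 : 0 ≤ t) (h1 : t ≤ σ ⊤)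
    (y : Y) : ∃ K, (K ∈ CC Y ∧ σ K = t) ∧ y ∈ (K : Set Y) := by
  obtain ⟨ν, hν⟩ := exists_wh (X := Y)
  obtain ⟨α, a1, -, a3, -, a5, a6, a7⟩ := exists_arc hν (singleton_mem_CC y) top_mem_CC le_top
  obtain ⟨r, -, hr⟩ := intermediate_value_Icc (hν.le (singleton_mem_CC y) top_mem_CC le_top)
    (h.cont.comp_continuous a3 a1).continuousOn (show t ∈ Icc _ _ by
      simp only [Function.comp, a6, a7, h.pt]; exact ⟨h0, h1⟩)
  exact ⟨α r, ⟨a1 r, hr⟩, a5 r (mem_singleton y)⟩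

theorem Sz.level_preconnected {σ : NonemptyCompacts Y → ℝ} (h : Sz σ) {t : ℝ} (h0 : 0 ≤ t)
    (h1 : t ≤ σ ⊤) : IsPreconnected {K | K ∈ CC Y ∧ σ K = t} := by
  set L := {K | K ∈ CC Y ∧ σ K = t} with hL
  have hLc : IsClosed L := h.isClosed_level t
  rw [isPreconnected_iff_subset_of_fully_disjoint_closed hLc]
  intro u v hu hv huv hd
  by_contra hcon
  rw [not_or] at hcon
  obtain ⟨K2', hK2, hK2u⟩ := not_subset.1 hcon.1
  obtain ⟨K1', hK1, hK1v⟩ := not_subset.1 hcon.2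
  have hcu : IsClosed (⋃ K ∈ L ∩ u, (K : Set Y)) :=
    (NonemptyCompacts.isCompact_biUnion_coe_of_isCompact (hLc.inter hu).isCompact).isClosed
  have hcv : IsClosed (⋃ K ∈ L ∩ v, (K : Set Y)) :=
    (NonemptyCompacts.isCompact_biUnion_coe_of_isCompact (hLc.inter hv).isCompact).isClosed
  obtain ⟨y, -, hy1, hy2⟩ := isPreconnected_closed_iff.1 (isPreconnected_univ (α := Y)) _ _ hcu hcv
    (fun y _ => by
      obtain ⟨K, hK, hyK⟩ := h.cover h0 h1 y
      rcases huv hK with h' | h'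
      · exact Or.inl (mem_biUnion (t := fun K : NonemptyCompacts Y => (K : Set Y)) ⟨hK, h'⟩ hyK)
      · exact Or.inr (mem_biUnion (t := fun K : NonemptyCompacts Y => (K : Set Y)) ⟨hK, h'⟩ hyK))
    (by
      obtain ⟨y, hy⟩ := K1'.nonempty
      exact ⟨y, mem_univ _, mem_biUnion (t := fun K : NonemptyCompacts Y => (K : Set Y))
        ⟨hK1, (huv hK1).resolve_right hK1v⟩ hy⟩)
    (by
      obtain ⟨y, hy⟩ := K2'.nonempty
      exact ⟨y, mem_univ _, mem_biUnion (t := fun K : NonemptyCompacts Y => (K : Set Y))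
        ⟨hK2, (huv hK2).resolve_left hK2u⟩ hy⟩)
  obtain ⟨K1, ⟨⟨k1, k1'⟩, k1u⟩, hy1⟩ := mem_iUnion₂.1 hy1
  obtain ⟨K2, ⟨⟨k2, k2'⟩, k2v⟩, hy2⟩ := mem_iUnion₂.1 hy2
  obtain ⟨ν, hν⟩ := exists_wh (X := Y)
  have hy := singleton_mem_CC y
  obtain ⟨α, a1, a2, a3, -, a5, a6, a7⟩ := exists_arc hν hy k1 (singleton_le_NC hy1)
  obtain ⟨β, b1, b2, b3, -, b5, b6, b7⟩ := exists_arc hν hy k2 (singleton_le_NC hy2)
  have i1 := hν.le hy k1 (singleton_le_NC hy1)
  have i2 := hν.le hy k2 (singleton_le_NC hy2)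
  have hmem : ∀ r s, α r ⊔ β s ∈ CC Y := fun r s =>
    sup_mem_CC (a1 r) (b1 s) (a5 r (mem_singleton y)) (b5 s (mem_singleton y))
  have hcont : Continuous fun p : ℝ × ℝ => α p.1 ⊔ β p.2 :=
    (a3.comp continuous_fst).sup (b3.comp continuous_snd)
  have hcl : ∀ w : Set (NonemptyCompacts Y), IsClosed w → IsClosed (Prod.fst ''
      ((Icc (ν {y}) (ν K1) ×ˢ Icc (ν {y}) (ν K2)) ∩
        (fun p : ℝ × ℝ => α p.1 ⊔ β p.2) ⁻¹' (L ∩ w))) := fun w hw =>
    (((isCompact_Icc.prod isCompact_Icc).inter_right ((hLc.inter hw).preimage hcont)).image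
      continuous_fst).isClosed
  obtain ⟨r, -, ⟨⟨r1, s1⟩, ⟨-, c1, c1'⟩, e1⟩, ⟨⟨r2, s2⟩, ⟨-, c2, c2'⟩, e2⟩⟩ :=
    isPreconnected_closed_iff.1 (isPreconnected_Icc (a := ν {y}) (b := ν K1)) _ _ (hcl u hu)
      (hcl v hv)
      (fun r hr => by
        obtain ⟨s, hs, hs'⟩ := intermediate_value_Icc i2
          (h.cont.comp_continuous (f := fun s => α r ⊔ β s) (continuous_const.sup b3)
            (hmem r)).continuousOn
          (show t ∈ Icc _ _ by
            simp only [Function.comp, b6, b7]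
            constructor
            · rw [sup_eq_left.2 (a5 r), ← k1', ← a7]
              exact h.le _ (a1 _) _ (a1 _) (a2 hr.2)
            · rw [← k2']
              exact h.le _ k2 _ (b7 ▸ hmem r _) le_sup_right)
        have hm : α r ⊔ β s ∈ L := ⟨hmem r s, hs'⟩
        rcases huv hm with h' | h'
        · exact Or.inl ⟨(r, s), ⟨⟨hr, hs⟩, hm, h'⟩, rfl⟩
        · exact Or.inr ⟨(r, s), ⟨⟨hr, hs⟩, hm, h'⟩, rfl⟩)
      ⟨ν K1, right_mem_Icc.2 i1, (ν K1, ν {y}), ⟨⟨right_mem_Icc.2 i1, left_mem_Icc.2 i2⟩, by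
        simp only [mem_preimage, a7, b6, sup_eq_left.2 (singleton_le_NC hy1)]
        exact ⟨⟨k1, k1'⟩, k1u⟩⟩, rfl⟩
      ⟨ν {y}, left_mem_Icc.2 i1, (ν {y}, ν K2), ⟨⟨left_mem_Icc.2 i1, right_mem_Icc.2 i2⟩, by
        simp only [mem_preimage, a6, b7, sup_eq_right.2 (singleton_le_NC hy2)]
        exact ⟨⟨k2, k2'⟩, k2v⟩⟩, rfl⟩
  simp only at e1 e2 c1 c1' c2 c2'
  subst e1
  subst e2
  have hsub : (fun s => α r2 ⊔ β s) '' uIcc s1 s2 ⊆ L := by
    rintro _ ⟨s, hs, rfl⟩
    refine ⟨hmem _ _, le_antisymm ?_ ?_⟩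
    · rcases mem_uIcc.1 hs with h' | h'
      · rw [← c2.2]; exact h.le _ (hmem _ _) _ (hmem _ _) (sup_le_sup_left (b2 h'.2) _)
      · rw [← c1.2]; exact h.le _ (hmem _ _) _ (hmem _ _) (sup_le_sup_left (b2 h'.2) _)
    · rcases mem_uIcc.1 hs with h' | h'
      · rw [← c1.2]; exact h.le _ (hmem _ _) _ (hmem _ _) (sup_le_sup_left (b2 h'.1) _)
      · rw [← c2.2]; exact h.le _ (hmem _ _) _ (hmem _ _) (sup_le_sup_left (b2 h'.1) _)
  obtain ⟨z, -, hz⟩ := isPreconnected_closed_iff.1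
    (isPreconnected_uIcc.image (fun s => α r2 ⊔ β s) (continuous_const.sup b3).continuousOn) u v
    hu hv (hsub.trans huv) ⟨_, mem_image_of_mem _ left_mem_uIcc, c1'⟩
    ⟨_, mem_image_of_mem _ right_mem_uIcc, c2'⟩
  exact disjoint_left.1 hd hz.1 hz.2

/-- Minimum of `g` on `K`. -/
noncomputable def glo (g : C(Y, ℝ)) (K : NonemptyCompacts Y) : ℝ := sInf (g '' K)

/-- Maximum of `g` on `K`. -/
noncomputable def ghi (g : C(Y, ℝ)) (K : NonemptyCompacts Y) : ℝ := sSup (g '' K)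

theorem glo_least (g : C(Y, ℝ)) (K : NonemptyCompacts Y) : IsLeast (g '' K) (glo g K) :=
  (K.isCompact.image g.continuous).isLeast_sInf (K.nonempty.image g)

theorem ghi_greatest (g : C(Y, ℝ)) (K : NonemptyCompacts Y) : IsGreatest (g '' K) (ghi g K) :=
  (K.isCompact.image g.continuous).isGreatest_sSup (K.nonempty.image g)

theorem continuous_glo (g : C(Y, ℝ)) : Continuous (glo g) := by
  rw [OrderTopology.continuous_iff]
  intro a
  constructor
  · convert NonemptyCompacts.isOpen_subsets_of_isOpen (isOpen_Ioi (a := a).preimage g.continuous)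
      using 1
    ext K
    constructor
    · intro h y hy
      exact lt_of_lt_of_le h ((glo_least g K).2 (mem_image_of_mem _ hy))
    · intro h
      obtain ⟨y, hy, e⟩ := (glo_least g K).1
      have : a < g y := h hy
      rwa [e] at this
  · convert NonemptyCompacts.isOpen_inter_nonempty_of_isOpen
      (isOpen_Iio (a := a).preimage g.continuous) using 1
    ext K
    constructor
    · intro h
      obtain ⟨y, hy, e⟩ := (glo_least g K).1
      exact ⟨y, hy, show g y < a by rw [e]; exact h⟩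
    · rintro ⟨y, hy, h⟩
      exact lt_of_le_of_lt ((glo_least g K).2 (mem_image_of_mem _ hy)) h

theorem continuous_ghi (g : C(Y, ℝ)) : Continuous (ghi g) := by
  rw [OrderTopology.continuous_iff]
  intro a
  constructor
  · convert NonemptyCompacts.isOpen_inter_nonempty_of_isOpen
      (isOpen_Ioi (a := a).preimage g.continuous) using 1
    ext K
    constructor
    · intro h
      obtain ⟨y, hy, e⟩ := (ghi_greatest g K).1
      exact ⟨y, hy, show a < g y by rw [e]; exact h⟩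
    · rintro ⟨y, hy, h⟩
      exact lt_of_lt_of_le h ((ghi_greatest g K).2 (mem_image_of_mem _ hy))
  · convert NonemptyCompacts.isOpen_subsets_of_isOpen (isOpen_Iio (a := a).preimage g.continuous)
      using 1
    ext K
    constructor
    · intro h y hy
      exact lt_of_le_of_lt ((ghi_greatest g K).2 (mem_image_of_mem _ hy)) h
    · intro h
      obtain ⟨y, hy, e⟩ := (ghi_greatest g K).1
      have : g y < a := h hy
      rwa [e] at this

theorem exists_fine
    (hY : ∀ ε : ℝ, ε > 0 → ∃ g : Y → ℝ, Continuous g ∧ ∀ r : ℝ, diam (g ⁻¹' {r}) < ε)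
    {ε : ℝ} (hε : 0 < ε) : ∃ (g : C(Y, ℝ)) (δ : ℝ), 0 < δ ∧ ∀ K K' : NonemptyCompacts Y,
      K' ∈ CC Y → Nest (glo g) (ghi g) (3 * δ) K K' →
        ∀ y ∈ (K : Set Y), ∃ y' ∈ (K' : Set Y), dist y y' < ε := by
  obtain ⟨g, hg, hd⟩ := hY ε hε
  have hc : IsCompact {p : Y × Y | ε ≤ dist p.1 p.2} :=
    (isClosed_le continuous_const continuous_dist).isCompact
  obtain ⟨a, ha, ha'⟩ := hc.exists_forall_le' (f := fun p => |g p.1 - g p.2|) (a := 0)
    (by fun_prop) (by
      rintro ⟨x, y⟩ hxy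
      rw [abs_pos, sub_ne_zero]
      intro e
      have : dist x y ≤ diam (g ⁻¹' {g y}) :=
        dist_le_diam_of_mem (isCompact_univ.isBounded.subset (subset_univ _)) e rfl
      have h2 : ε ≤ dist x y := hxy
      linarith [hd (g y)])
  refine ⟨⟨g, hg⟩, a / 4, by linarith, fun K K' hK' hN y hy => ?_⟩
  have hI : g '' K' = Icc (glo ⟨g, hg⟩ K') (ghi ⟨g, hg⟩ K') :=
    eq_Icc_of_connected_compact (IsConnected.image hK' g hg.continuousOn) (K'.isCompact.image hg)
  have l1 := (glo_least ⟨g, hg⟩ K).2 (mem_image_of_mem _ hy)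
  have l2 := (ghi_greatest ⟨g, hg⟩ K).2 (mem_image_of_mem _ hy)
  have l3 : glo ⟨g, hg⟩ K' ≤ ghi ⟨g, hg⟩ K' :=
    (glo_least ⟨g, hg⟩ K').2 (ghi_greatest ⟨g, hg⟩ K').1
  obtain ⟨n1, n2⟩ := hN
  simp only [ContinuousMap.coe_mk] at l1 l2
  obtain ⟨y', hy', e⟩ : max (glo ⟨g, hg⟩ K') (min (g y) (ghi ⟨g, hg⟩ K')) ∈ g '' K' := by
    rw [hI]; exact ⟨le_max_left _ _, max_le l3 (min_le_right _ _)⟩
  refine ⟨y', hy', ?_⟩
  by_contra hcon
  have := ha' (y, y') (not_lt.1 hcon)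
  simp only [e] at this
  rcases le_total (g y) (ghi ⟨g, hg⟩ K') with h1 | h1
  · rw [min_eq_left h1] at this
    rcases le_total (glo ⟨g, hg⟩ K') (g y) with h2 | h2
    · rw [max_eq_right h2] at this; simp at this; linarith
    · rw [max_eq_left h2, abs_of_nonpos (by linarith)] at this; linarith
  · rw [min_eq_right h1, max_eq_right l3, abs_of_nonneg (by linarith)] at this; linarith

theorem nest_of_near (g : C(Y, ℝ)) {δ : ℝ} {K K' : NonemptyCompacts Y}
    (h : ∀ y ∈ (K : Set Y), ∃ y' ∈ (K' : Set Y), dist (g y) (g y') ≤ δ) :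
    Nest (glo g) (ghi g) δ K K' := by
  constructor
  · obtain ⟨y, hy, e⟩ := (glo_least g K).1
    obtain ⟨y', hy', hd⟩ := h y hy
    have := (glo_least g K').2 (mem_image_of_mem _ hy')
    rw [Real.dist_eq, abs_le] at hd
    linarith [hd.1]
  · obtain ⟨y, hy, e⟩ := (ghi_greatest g K).1
    obtain ⟨y', hy', hd⟩ := h y hy
    have := (ghi_greatest g K').2 (mem_image_of_mem _ hy')
    rw [Real.dist_eq, abs_le] at hd
    linarith [hd.2]

end Size

section Level

variable {X : Type} [MetricSpace X] [CompactSpace X] [ConnectedSpace X]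

theorem exists_whisker {μ : NonemptyCompacts X → ℝ} (h : Wh μ) (hpt : ∀ x, μ {x} = 0) {t : ℝ}
    {A B : NonemptyCompacts X} (hA : A ∈ CC X) (hB : B ∈ CC X) (hA' : μ A = t) (hB' : μ B = t)
    {x : X} (hxA : x ∈ (A : Set X)) (hxB : x ∈ (B : Set X)) :
    ∃ H : ℝ → NonemptyCompacts X, (∀ s, H s ∈ CC X ∧ μ (H s) = t) ∧ H 0 = A ∧ H 1 = B ∧
      ∀ s s', s ∈ Icc (0 : ℝ) 1 → s' ∈ Icc (0 : ℝ) 1 → s ≤ s' → H s ≤ H s' ∨
        ∃ D ∈ CC X, ∃ D' ∈ CC X, D ≤ D' ∧ μ D' = μ D + t * (s' - s) ∧ D ≤ H s ∧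
          H s' ≤ H s ⊔ D' := by
  have hx := singleton_mem_CC x
  obtain ⟨α, a1, a2, a3, a4, a5, a6, a7⟩ := exists_arc h hx hA (singleton_le_NC hxA)
  obtain ⟨β, b1, b2, b3, b4, b5, b6, b7⟩ := exists_arc h hx hB (singleton_le_NC hxB)
  have ht : 0 ≤ t := by
    have := h.le hx hA (singleton_le_NC hxA)
    rwa [hpt, hA'] at this
  rw [hpt, hA'] at a4
  rw [hpt, hB'] at b4
  rw [hpt] at a6 b6
  rw [hA'] at a7
  rw [hB'] at b7
  have hmem : ∀ r s, α r ⊔ β s ∈ CC X := fun r s =>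
    sup_mem_CC (a1 r) (b1 s) (a5 r (mem_singleton x)) (b5 s (mem_singleton x))
  have hex : ∀ s : ℝ, ∃ r ∈ Icc 0 t, μ (α r ⊔ β (min (t * s) t)) = t := by
    intro s
    refine intermediate_value_Icc ht
      (h.cont.comp_continuous (f := fun r => α r ⊔ β (min (t * s) t)) (a3.sup continuous_const)
        (fun r => hmem r _)).continuousOn
      (show t ∈ Icc _ _ by
        simp only [Function.comp, a6, a7]
        constructor
        · rw [sup_eq_right.2 (b5 _)]
          refine (h.le (b1 _) (b1 _) (b2 (min_le_right _ _))).trans ?_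
          rw [b7, hB']
        · rw [← a7]
          refine le_trans ?_ (h.le (a1 t) (hmem _ _) le_sup_left)
          rw [a7, hA'])
  choose r hr hr' using hex
  have hmin : ∀ s ∈ Icc (0 : ℝ) 1, min (t * s) t = t * s := fun s hs =>
    min_eq_left (mul_le_of_le_one_right ht hs.2)
  refine ⟨fun s => α (r s) ⊔ β (min (t * s) t), fun s => ⟨hmem _ _, hr' s⟩, ?_, ?_,
    fun s s' hs hs' hss => ?_⟩
  · have := hr' 0
    simp only [mul_zero, min_eq_left ht, b6, sup_eq_left.2 (a5 _)] at this ⊢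
    rw [a4 _ (hr 0)] at this
    rw [this, a7]
  · have := hr' 1
    simp only [mul_one, min_self, b7] at this ⊢
    exact (h.eq_of_le hB (b7 ▸ hmem _ _) le_sup_right (by rw [this, hB'])).symm
  · simp only [hmin s hs, hmin s' hs']
    have hts : t * s ≤ t * s' := mul_le_mul_of_nonneg_left hss ht
    rcases le_total (r s) (r s') with h' | h'
    · exact Or.inl (sup_le_sup (a2 h') (b2 hts))
    · refine Or.inr ⟨β (t * s), b1 _, β (t * s'), b1 _, b2 hts, ?_, le_sup_right,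
        sup_le ((a2 h').trans (le_sup_left.trans le_sup_left)) le_sup_right⟩
      rw [b4 _ ⟨mul_nonneg ht hs.1, mul_le_of_le_one_right ht hs.2⟩,
        b4 _ ⟨mul_nonneg ht hs'.1, mul_le_of_le_one_right ht hs'.2⟩]
      ring

theorem wc_level (hX : WC X) {μ : NonemptyCompacts X → ℝ} (h : Wh μ) (hpt : ∀ x, μ {x} = 0)
    {t : ℝ} (ht : ∃ K ∈ CC X, μ K = t) : WC {K | K ∈ CC X ∧ μ K = t} := by
  obtain ⟨Y, _, _, _, hY, f, hf, hfs⟩ := hX
  obtain ⟨K0, hK0, hK0'⟩ := ht
  have hXsz : Sz μ := ⟨h.cont, fun A hA B hB => h.le hA hB, hpt⟩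
  have h0 : 0 ≤ t := by
    obtain ⟨x, hx⟩ := K0.nonempty
    have := h.le (singleton_mem_CC x) hK0 (singleton_le_NC hx)
    rwa [hpt, hK0'] at this
  have h1 : t ≤ μ ⊤ := hK0' ▸ h.le hK0 top_mem_CC le_top
  have hmap : ∀ K ∈ CC Y, K.map f hf ∈ CC X := fun K hK => IsConnected.image hK f hf.continuousOn
  have hσ : Sz fun K : NonemptyCompacts Y => μ (K.map f hf) :=
    ⟨h.cont.comp hf.nonemptyCompacts_map.continuousOn hmap,
      fun A hA B hB hAB => h.le (hmap A hA) (hmap B hB) (image_mono hAB),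
      fun y => by rw [NonemptyCompacts.map_singleton, hpt]⟩
  have h1' : t ≤ μ ((⊤ : NonemptyCompacts Y).map f hf) := by
    have : (⊤ : NonemptyCompacts Y).map f hf = ⊤ :=
      NonemptyCompacts.ext (by simp [hfs.range_eq])
    rwa [this]
  set L := {K | K ∈ CC X ∧ μ K = t} with hL
  set AA := {K : NonemptyCompacts Y | K ∈ CC Y ∧ μ (K.map f hf) = t} with hAA
  have : CompactSpace L := isCompact_iff_compactSpace.1 (hXsz.isClosed_level t).isCompact
  let φ : AA → L := fun K => ⟨K.1.map f hf, hmap _ K.2.1, K.2.2⟩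
  obtain ⟨b, hh, hsys, hdense⟩ := exists_sys (S := C(Y, ℝ)) φ (fun g K => glo g K.1)
    (fun g K => ghi g K.1)
    (fun g δ η hδ hη => by
      obtain ⟨δ1, hδ1, hδ1'⟩ := h.near hη
      obtain ⟨ε1, hε1, hε1'⟩ := Metric.uniformContinuous_iff.1
        (CompactSpace.uniformContinuous_of_continuous hf) δ1 hδ1
      obtain ⟨ε2, hε2, hε2'⟩ := Metric.uniformContinuous_iff.1
        (CompactSpace.uniformContinuous_of_continuous g.continuous) δ hδ
      obtain ⟨g', δ', hδ', hg'⟩ := exists_fine hY (lt_min hε1 hε2)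
      refine ⟨g', δ', hδ', fun K K' hN => ?_⟩
      have key := hg' K.1 K'.1 K'.2.1 hN
      constructor
      · refine nest_of_near g fun y hy => ?_
        obtain ⟨y', hy', hd⟩ := key y hy
        exact ⟨y', hy', (hε2' (hd.trans_le (min_le_right _ _))).le⟩
      · refine hδ1' _ (hmap _ K.2.1) _ (hmap _ K'.2.1) (dist_sup_le hδ1.le ?_) ?_
        · rintro _ ⟨y, hy, rfl⟩
          obtain ⟨y', hy', hd⟩ := key y hy
          exact ⟨f y', mem_image_of_mem _ hy', (hε1' (hd.trans_le (min_le_left _ _))).le⟩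
        · rw [K.2.2, K'.2.2]; linarith)
    (fun g => by
      have hc : Continuous fun K => glo g K + ghi g K := (continuous_glo g).add (continuous_ghi g)
      have hne : AA.Nonempty := by
        obtain ⟨y⟩ : Nonempty Y := inferInstance
        obtain ⟨K, hK, -⟩ := hσ.cover h0 h1' y
        exact ⟨K, hK⟩
      have e := eq_Icc_of_connected_compact
        (IsConnected.image ⟨hne, hσ.level_preconnected h0 h1'⟩ _ hc.continuousOn)
        ((hσ.isClosed_level t).isCompact.image hc)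
      refine ⟨_, _, ?_, (image_eq_range _ _).symm.trans e⟩
      have := hne.image fun K => glo g K + ghi g K
      rw [e] at this
      exact nonempty_Icc.1 this)
  have hwh : ∀ B : L, ∃ (K : AA) (H : ℝ → NonemptyCompacts X), (∀ s, H s ∈ CC X ∧ μ (H s) = t) ∧
      H 0 = K.1.map f hf ∧ H 1 = B ∧
      ∀ s s', s ∈ Icc (0 : ℝ) 1 → s' ∈ Icc (0 : ℝ) 1 → s ≤ s' → H s ≤ H s' ∨
        ∃ D ∈ CC X, ∃ D' ∈ CC X, D ≤ D' ∧ μ D' = μ D + t * (s' - s) ∧ D ≤ H s ∧
          H s' ≤ H s ⊔ D' := by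
    intro B
    obtain ⟨x, hx⟩ := B.1.nonempty
    obtain ⟨y, rfl⟩ := hfs x
    obtain ⟨K, hK, hyK⟩ := hσ.cover h0 h1' y
    exact ⟨⟨K, hK⟩, exists_whisker h hpt (hmap K hK.1) B.2.1 hK.2 B.2.2
      (mem_image_of_mem _ hyK) hx⟩
  choose K H H1 H2 H3 H4 using hwh
  have : Nonempty L := ⟨⟨K0, hK0, hK0'⟩⟩
  refine wc_of_whiskers (Z := L) (by norm_num) hsys (fun B s => ⟨H B s, H1 B s⟩)
    (fun η hη => ?_) (fun n B => ?_) fun B => ⟨B, Subtype.ext (H3 B)⟩
  · obtain ⟨δ1, hδ1, hδ1'⟩ := h.near hη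
    obtain ⟨δ2, hδ2, hδ2'⟩ := h.near hδ1
    have key : ∀ B s s', s ∈ Icc (0 : ℝ) 1 → s' ∈ Icc (0 : ℝ) 1 → s ≤ s' →
        s' - s ≤ δ2 / (t + 1) → dist (H B s) (H B s') ≤ η := by
      intro B s s' hs hs' hss hd
      rcases H4 B s s' hs hs' hss with h' | ⟨D, hD, D', hD', d1, d2, d3, d4⟩
      · refine hδ1' _ (H1 B s).1 _ (H1 B s').1 ?_ ?_
        · rw [sup_eq_right.2 h', dist_self]; exact hδ1.le
        · rw [(H1 B s).2, (H1 B s').2]; linarith
      · have e1 : dist D D' ≤ δ1 := by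
          refine hδ2' _ hD _ hD' (by rw [sup_eq_right.2 d1, dist_self]; exact hδ2.le) ?_
          rw [le_div_iff₀ (by linarith)] at hd
          rw [d2]; nlinarith
        rw [dist_comm]
        refine hδ1' _ (H1 B s').1 _ (H1 B s).1 (dist_sup_le hδ1.le fun x hx => ?_) ?_
        · rcases d4 hx with h' | h'
          · exact ⟨x, h', by simpa using hδ1.le⟩
          · obtain ⟨y, hy, hxy⟩ := D.isCompact.exists_infDist_eq_dist D.nonempty x
            refine ⟨y, d3 hy, ?_⟩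
            rw [← hxy]
            have := (lipschitz_infDist_set x).dist_le_mul D D'
            rw [infDist_zero_of_mem (show x ∈ (D' : Set X) from h'), NNReal.coe_one, one_mul, Real.dist_eq, sub_zero] at this
            exact (le_abs_self _).trans (this.trans e1)
        · rw [(H1 B s).2, (H1 B s').2]; linarith
    refine ⟨δ2 / (t + 1), by positivity, fun B s s' hs hs' hd => ?_⟩
    rw [abs_le] at hd
    rcases le_total s s' with h' | h'
    · exact key B s s' hs hs' h' (by linarith [hd.1])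
    · rw [dist_comm]; exact key B s' s hs' hs h' hd.2
  · obtain ⟨i, hi, hi'⟩ := hdense n (K B)
    refine ⟨i, hi, ?_⟩
    convert hi' using 2
    exact Subtype.ext (H2 B)

end Level

end Pool.Agent.Lib.MP_4bbdcb_gt
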